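import Pool.Agent.Run7.h268.FN.Fam

/-!
# A fixed number of primes: all primes marked, the diagonal given by the kind

`m` runs over the squarefree numbers with all prime factors `1` modulo `4` and in a set `S`, `b` of them
with the diagonal entry `0` and `r` with the diagonal entry `1`.
-/

set_option autoImplicit false

open scoped Classical

namespace Run7.h268.FN

open Finset Filter Topology
open Pool.Agent.Y219.CQ (sp)
open Pool.Agent.V11291.FK (PG QG Dn)

/-- the primes -/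
def AS (S : Set ℕ) (p : ℕ) : Prop := p.Prime ∧ p % 4 = 1 ∧ p ∈ S

/-- the kinds -/
noncomputable def cF (f : ℕ → ZMod 2) (p : ℕ) : ℕ := if f p = 0 then 1 else 2

/-- all primes are marked -/
def tr (_ : ℕ) : Prop := True

theorem cF_iff (f : ℕ → ZMod 2) (p : ℕ) : (cF f p = 1 ↔ f p = 0) ∧ (cF f p = 2 ↔ f p = 1) := by
  have h2 : ∀ a : ZMod 2, a ≠ 0 ↔ a = 1 := by decide
  unfold cF
  by_cases h : f p = 0
  · rw [if_pos h, h]
    exact ⟨by simp, by simp⟩
  · rw [if_neg h]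
    exact ⟨⟨fun h3 => absurd h3 (by norm_num), fun h3 => absurd h3 h⟩,
      ⟨fun _ => (h2 _).1 h, fun _ => rfl⟩⟩

theorem admF (S : Set ℕ) (f : ℕ → ZMod 2) : Adm (AS S) (cF f) tr tr where
  prime _ h := h.1
  odd p h := by
    rintro rfl
    exact absurd h.2.1 (by norm_num)
  four _ h _ := h.2.1
  mark _ _ := Iff.rfl

/-- the proportion -/
noncomputable def prp (b r : ℕ) : ℝ :=
  if r = 0 then 0 else if Odd r then sp (b + r - 1) else sp (b + r - 2)

theorem prp_mem (b r : ℕ) : 0 ≤ prp b r ∧ prp b r ≤ 1 := by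
  unfold prp
  split_ifs
  · exact ⟨le_rfl, zero_le_one⟩
  · exact ⟨sp_nonneg _, sp_le_one _⟩
  · exact ⟨sp_nonneg _, sp_le_one _⟩

theorem prob_all {A : ℕ → Prop} {cl : ℕ → ℕ} {M : ℕ → Prop} (f : ℕ → ZMod 2) {b r u v : ℕ}
    (hu : M u) (hv : M v) (hbr : 1 ≤ b + r) (h0 : ∀ p, A p → cl p = u → f p = 0)
    (h1 : ∀ p, A p → cl p = v → f p = 1) :
    @Prob (Fin b ⊕ Fin r) _ (ordS b r) A cl M f (ty b r u v) (prp b r) := by
  let _ : LinearOrder (Fin b ⊕ Fin r) := ordS b r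
  intro p hp
  rw [JM_all M b r u v hu hv]
  have hl : ∀ i, f (p (Sum.inl i)) = 0 := fun i => h0 _ (hp (Sum.inl i)).1 (hp (Sum.inl i)).2
  have hr : ∀ i, f (p (Sum.inr i)) = 1 := fun i => h1 _ (hp (Sum.inr i)).1 (hp (Sum.inr i)).2
  have hsum : ∑ i, f (p i) = (r : ZMod 2) := by
    rw [Fintype.sum_sum_type, Finset.sum_congr rfl fun i _ => hl i,
      Finset.sum_congr rfl fun i _ => hr i, Finset.sum_const_zero, zero_add, Finset.sum_const,
      Finset.card_univ, Fintype.card_fin, nsmul_eq_mul, mul_one]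
  unfold prp
  by_cases hr0 : r = 0
  · rw [if_pos hr0]
    have hf : (fun i => f (p i)) = fun _ => 0 := by
      funext i
      rcases i with i | i
      · exact hl i
      · have := i.2
        omega
    have hne : Nonempty (Fin b ⊕ Fin r) := ⟨Sum.inl ⟨0, by omega⟩⟩
    rw [hf]
    exact PrT_none
  · rw [if_neg hr0]
    by_cases ho : Odd r
    · rw [if_pos ho]
      have h2 := PrT_one Pool.Agent.Y839.CQ.t_SYM (fun i => f (p i)) (by
        rw [hsum]
        exact (ZMod.natCast_eq_one_iff_odd).2 ho)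
      rw [card_S] at h2
      exact h2
    · rw [if_neg ho]
      have h2 := PrT_zero Pool.Agent.Y839.CQ.t_SYM (fun i => f (p i)) (by
        rw [hsum]
        exact (ZMod.natCast_eq_zero_iff_even).2 (Nat.not_odd_iff_even.1 ho))
        (Sum.inr ⟨0, by omega⟩) (by
          rw [hr]
          exact one_ne_zero)
      rw [card_S] at h2
      exact h2

/-- the family of the numbers -/
def FamF (S : Set ℕ) (f : ℕ → ZMod 2) (b r m : ℕ) : Prop :=
  Squarefree m ∧ (∀ p ∈ m.primeFactors, AS S p) ∧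
    Nat.card {p : ℕ // p.Prime ∧ p ∣ m ∧ f p = 0} = b ∧
    Nat.card {p : ℕ // p.Prime ∧ p ∣ m ∧ f p = 1} = r

theorem famF_iff {S : Set ℕ} {f : ℕ → ZMod 2} {b r m : ℕ} :
    FamF S f b r m ↔ FamN (AS S) (cF f) (ty b r 1 2) m := by
  rw [famN_iff (by norm_num : 1 ≠ 2)]
  unfold FamF
  refine and_congr_right fun _ => and_congr_right fun _ => ?_
  simp only [(cF_iff f _).1, (cF_iff f _).2]
  constructor
  · rintro ⟨h2, h3⟩
    refine ⟨fun p _ => ?_, h2, h3⟩
    have h4 : ∀ a : ZMod 2, a = 0 ∨ a = 1 := by decide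
    exact h4 _
  · rintro ⟨-, h2, h3⟩
    exact ⟨h2, h3⟩

/-- **The law.** -/
theorem lawF (S : Set ℕ) (f : ℕ → ZMod 2) (b r : ℕ) (hbr : 1 ≤ b + r)
    (hb : 0 < b → Dn fun p => AS S p ∧ f p = 0) (hr : 0 < r → Dn fun p => AS S p ∧ f p = 1) :
    (∃ (c C : ℝ) (X₀ : ℕ), 0 < c ∧ 0 < C ∧ ∀ X : ℕ, X₀ ≤ X →
      c * (X * Real.log (Real.log X) ^ (b + r - 1) / Real.log X) ≤ (cnt (FamF S f b r) X : ℝ) ∧
      (cnt (FamF S f b r) X : ℝ) ≤
        C * (X * Real.log (Real.log X) ^ (b + r - 1) / Real.log X)) ∧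
    Tendsto (fun X : ℕ => (cnt (fun m => FamF S f b r m ∧ GdM tr f m.primeFactors) X : ℝ) /
      (cnt (FamF S f b r) X : ℝ)) atTop (𝓝 (prp b r)) := by
  let _ : LinearOrder (Fin b ⊕ Fin r) := ordS b r
  have hD : ∀ i, Dn (PG (AS S) (cF f) (ty b r 1 2) i) := by
    have h2 : ∀ {P Q : ℕ → Prop}, (∀ p, P p → Q p) → Dn P → Dn Q := by
      rintro P Q hPQ ⟨δ, Y₀, hδ, h⟩
      refine ⟨δ, Y₀, hδ, fun Y hY => (h Y hY).trans ?_⟩
      exact_mod_cast Finset.card_le_card (Finset.monotone_filter_right _ fun p _ => hPQ p)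
    rintro (i | i)
    · exact h2 (fun p hp => ⟨hp.1, (cF_iff f p).1.2 hp.2⟩) (hb (by have := i.2; omega))
    · exact h2 (fun p hp => ⟨hp.1, (cF_iff f p).2.2 hp.2⟩) (hr (by have := i.2; omega))
  have h0 := prp_mem b r
  have hP : Prob (AS S) (cF f) tr f (ty b r 1 2) (prp b r) :=
    prob_all f trivial trivial hbr (fun p _ h => (cF_iff f p).1.1 h) fun p _ h => (cF_iff f p).2.1 h
  have h := law_ty (admF S f) hbr h0.1 h0.2 hP hD
  have e : FamF S f b r = FamN (AS S) (cF f) (ty b r 1 2) := funext fun m => propext famF_iff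
  rw [e]
  exact h

end Run7.h268.FN
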