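import Pool.Agent.V11291.FK.Box

/-!
# A fixed number of primes: the random matrices

The probability that the system of a random graph (the Laplacian plus a given diagonal) has only the
zero solution, also in the case that all indices are marked.
-/

set_option autoImplicit false

open scoped Classical

namespace Run7.h268.FN

open Finset Module Function
open Pool.Agent.Y703.CQ (S_SYM prs ext)
open Pool.Agent.Y219.CQ (F sp fr_Ns Ns Sy bf bf_apply bf_l bf_r bf_symm bf_add bf_single all_zero
  mem_prs ext_self ext_pos ext_neg ext_symm ext_add char2)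
open Pool.Agent.Y759.CX (fr fr_equiv fr_comp)

/-- the system of a tuple has only the zero solution -/
def GdT {ι : Type} [Fintype ι] (J1 : Finset ι) (R : ι → ι → ZMod 2) (g : ι → ZMod 2) : Prop :=
  ∀ y : ι → ZMod 2, (∀ k, k ∉ J1 → y k = 0) →
    (∀ k ∈ J1, ∑ l, R k l * (y l + y k) + g k * y k = 0) → ∀ k, y k = 0

variable {ι : Type} [Fintype ι] [LinearOrder ι]

/-- the probability that the system has only the zero solution -/
noncomputable def PrT (J1 : Finset ι) (g : ι → ZMod 2) : ℝ :=
  ((univ.filter fun α : prs J1 → ZMod 2 => GdT J1 (ext α) g).card : ℝ) / 2 ^ (prs J1).card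

theorem PrT_unmarked (h : S_SYM) (J1 : Finset ι) (hJ : ∃ l, l ∉ J1) (g : ι → ZMod 2) :
    PrT J1 g = sp J1.card := by
  have h0 := Pool.Agent.V11291.FK.LA0 h (U := Empty) ∅ J1 hJ (fun _ _ => 0) (fun _ _ => 0)
    (fun _ _ => 0) (fun _ => 0) g
  unfold PrT
  rw [← h0]
  congr 3
  refine Finset.filter_congr fun α _ => ?_
  unfold GdT Pool.Agent.Y703.CQ.GdA
  constructor
  · intro h1 x y _ h2 _ h3
    refine ⟨fun u => u.elim, h1 y h2 fun k hk => ?_⟩
    have := h3 k hk
    rw [Finset.univ_eq_empty, Finset.sum_empty, zero_add] at this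
    exact this
  · intro h1 y h2 h3
    refine (h1 (fun u => u.elim) y (fun u => u.elim) h2 (fun u => u.elim) fun k hk => ?_).2
    rw [Finset.univ_eq_empty, Finset.sum_empty, zero_add]
    exact h3 k hk

/-! ### all indices marked -/

/-- the matrix of the system -/
noncomputable def mM (α : prs (univ : Finset ι) → F) (g : ι → F) (k l : ι) : F :=
  ext α k l + if k = l then ∑ l', ext α k l' + g k else 0

theorem mM_symm (α : prs (univ : Finset ι) → F) (g : ι → F) (k l : ι) : mM α g k l = mM α g l k := by
  unfold mM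
  by_cases h : k = l
  · rw [h]
  · rw [if_neg h, if_neg (Ne.symm h), ext_symm univ α (mem_univ k) (mem_univ l)]

theorem mM_add (α β : prs (univ : Finset ι) → F) (g h : ι → F) (k l : ι) :
    mM (α + β) (g + h) k l = mM α g k l + mM β h k l := by
  unfold mM
  simp only [ext_add, sum_add_distrib, Pi.add_apply]
  by_cases hk : k = l
  · simp only [if_pos hk]
    ring
  · simp only [if_neg hk, add_zero]

theorem bf_mM_add (α β : prs (univ : Finset ι) → F) (g h : ι → F) :
    bf (mM (α + β) (g + h)) = bf (mM α g) + bf (mM β h) := by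
  rw [← bf_add]
  congr 1
  funext k l
  exact mM_add α β g h k l

theorem row (α : prs (univ : Finset ι) → F) (g x : ι → F) (k : ι) :
    ∑ i, x i * mM α g i k = ∑ l, ext α k l * (x l + x k) + g k * x k := by
  unfold mM
  have e1 : ∀ i, x i * (ext α i k + if i = k then ∑ l', ext α i l' + g i else 0) =
      ext α k i * x i + if i = k then (∑ l', ext α i l' + g i) * x i else 0 := by
    intro i
    rw [ext_symm univ α (mem_univ i) (mem_univ k)]
    by_cases h : i = k
    · rw [if_pos h, if_pos h]
      ring
    · rw [if_neg h, if_neg h]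
      ring
  rw [Finset.sum_congr rfl fun i _ => e1 i, Finset.sum_add_distrib, Finset.sum_ite_eq',
    if_pos (mem_univ k), add_mul, Finset.sum_mul, ← add_assoc, ← Finset.sum_add_distrib]
  congr 1
  exact Finset.sum_congr rfl fun l _ => (mul_add _ _ _).symm

theorem gdT_iff (α : prs (univ : Finset ι) → F) (g : ι → F) :
    GdT univ (ext α) g ↔ Ns (bf (mM α g)) := by
  unfold GdT Ns
  constructor
  · intro h x hx
    have h1 : ∀ k, ∑ i, x i * mM α g i k = 0 := by
      refine all_zero _ fun y => ?_
      rw [← bf_l]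
      exact hx y
    funext k
    refine h x (fun k hk => absurd (mem_univ k) hk) (fun k _ => ?_) k
    rw [← row]
    exact h1 k
  · intro h y _ hy k
    have h1 : y = 0 := by
      refine h y fun z => ?_
      rw [bf_l]
      refine Finset.sum_eq_zero fun k _ => ?_
      rw [row, hy k (mem_univ k), zero_mul]
    rw [h1]
    rfl

/-- the functional of the vector `g` -/
noncomputable def gm (g : ι → F) : (ι → F) →ₗ[F] F := ∑ k, g k • LinearMap.proj k

omit [LinearOrder ι] in
theorem gm_apply (g x : ι → F) : gm g x = ∑ k, g k * x k := by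
  unfold gm
  rw [LinearMap.sum_apply]
  rfl

/-- the vector of ones -/
def ov : ι → F := fun _ => 1

theorem bf_one (α : prs (univ : Finset ι) → F) (g y : ι → F) : bf (mM α g) ov y = gm g y := by
  rw [bf_l, gm_apply]
  refine Finset.sum_congr rfl fun k _ => ?_
  rw [row]
  unfold ov
  simp only [char2, mul_zero, Finset.sum_const_zero, zero_add, mul_one]

theorem bf_one' (α : prs (univ : Finset ι) → F) (g y : ι → F) : bf (mM α g) y ov = gm g y := by
  rw [bf_symm _ (mM_symm α g), bf_one]

/-- the forms of the graphs, restricted to a subspace -/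
noncomputable def pT (T : Submodule F (ι → F)) : (prs (univ : Finset ι) → F) →+ Sy T where
  toFun α := ⟨(bf (mM α 0)).domRestrict₁₂ T T, fun x y => bf_symm _ (mM_symm α 0) x y⟩
  map_zero' := by
    refine Subtype.ext ?_
    have h : ∀ k l, mM (0 : prs (univ : Finset ι) → F) 0 k l = 0 := by
      intro k l
      have h := mM_add (ι := ι) 0 0 0 0 k l
      rw [add_zero, add_zero] at h
      exact left_eq_add.1 h
    show (bf (mM (0 : prs (univ : Finset ι) → F) 0)).domRestrict₁₂ T T = 0
    refine LinearMap.ext fun x => LinearMap.ext fun y => ?_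
    rw [LinearMap.domRestrict₁₂_apply, bf_apply]
    show _ = (0 : F)
    refine Finset.sum_eq_zero fun i _ => Finset.sum_eq_zero fun k _ => ?_
    rw [h, mul_zero, zero_mul]
  map_add' α β := by
    refine Subtype.ext ?_
    have h := bf_mM_add α β 0 0
    rw [add_zero] at h
    show (bf (mM (α + β) 0)).domRestrict₁₂ T T = (bf (mM α 0)).domRestrict₁₂ T T +
      (bf (mM β 0)).domRestrict₁₂ T T
    rw [h]
    rfl

theorem pT_surj (T : Submodule F (ι → F)) (h1 : (ov : ι → F) ∉ T) (hon : (ov : ι → F) ≠ 0) :
    Surjective (pT T) := by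
  intro S
  have hd : Disjoint (Submodule.span F {(ov : ι → F)}) T :=
    ((Submodule.disjoint_span_singleton' hon).2 h1).symm
  obtain ⟨W, hW1, hW2⟩ := hd.exists_isCompl
  set π : (ι → F) →ₗ[F] T := T.projectionOnto W hW2.symm with hπ
  have hπ1 : ∀ t : T, π t = t := fun t => Submodule.projectionOnto_apply_left hW2.symm t
  have hπ2 : π ov = 0 := by
    refine (Submodule.projectionOnto_apply_eq_zero_iff hW2.symm).2 ?_
    exact hW1 (Submodule.mem_span_singleton_self _)
  obtain ⟨D, hD⟩ : ∃ D : ι → ι → F, D = fun k l => S.1 (π (Pi.single k 1)) (π (Pi.single l 1)) :=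
    ⟨_, rfl⟩
  have hDs : ∀ k l, D k l = D l k := fun k l => by
    rw [hD]
    exact S.2 _ _
  obtain ⟨α, hα⟩ : ∃ α : prs (univ : Finset ι) → F, α = fun e => D e.1.1 e.1.2 := ⟨_, rfl⟩
  have e1 : ∀ k l, k ≠ l → ext α k l = D k l := by
    intro k l hkl
    rcases lt_or_gt_of_ne hkl with h | h
    · rw [ext_pos univ α ((mem_prs univ k l).2 ⟨mem_univ k, h.ne', fun _ => h⟩), hα]
    · rw [ext_neg univ α ((mem_prs univ l k).2 ⟨mem_univ l, h.ne', fun _ => h⟩) (mem_univ k), hα]
      exact hDs l k
  have e2 : ∀ k, ∑ l, D k l = 0 := by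
    intro k
    have h2 : ∑ l, D k l = S.1 (π (Pi.single k 1)) (π ov) := by
      have h3 : (ov : ι → F) = ∑ l, Pi.single l 1 := by
        funext i
        rw [Finset.sum_apply, Finset.sum_eq_single i]
        · rw [Pi.single_eq_same]
          rfl
        · intro j _ hj
          rw [Pi.single_eq_of_ne hj.symm]
        · intro h
          exact absurd (mem_univ i) h
      rw [h3, map_sum, map_sum, hD]
    rw [h2, hπ2, map_zero]
  have e3 : ∀ k, ∑ l, ext α k l = D k k := by
    intro k
    have h2 := e2 k
    rw [← add_sum_erase univ _ (mem_univ k)] at h2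
    rw [← add_sum_erase univ _ (mem_univ k), ext_self, zero_add,
      Finset.sum_congr rfl fun l hl => e1 k l (ne_of_mem_erase hl).symm]
    have h3 := char2 (∑ l ∈ univ.erase k, D k l)
    exact add_right_cancel (h3.trans h2.symm)
  have e4 : bf (mM α 0) = S.1.compl₁₂ π π := by
    refine LinearMap.ext_basis (Pi.basisFun F ι) (Pi.basisFun F ι) fun k l => ?_
    rw [Pi.basisFun_apply, Pi.basisFun_apply, bf_single, LinearMap.compl₁₂_apply]
    have e5 : S.1 (π (Pi.single k 1)) (π (Pi.single l 1)) = D k l := by rw [hD]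
    rw [e5]
    unfold mM
    by_cases h : k = l
    · rw [if_pos h, e3 k, ← h, ext_self, Pi.zero_apply, add_zero, zero_add]
    · rw [if_neg h, add_zero]
      exact e1 k l h
  refine ⟨α, Subtype.ext ?_⟩
  show (bf (mM α 0)).domRestrict₁₂ T T = S.1
  rw [e4]
  refine LinearMap.ext fun x => LinearMap.ext fun y => ?_
  rw [LinearMap.domRestrict₁₂_apply, LinearMap.compl₁₂_apply, hπ1, hπ1]

theorem PrT_eq_fr (J1 : Finset ι) (g : ι → ZMod 2) :
    PrT J1 g = fr fun α : prs J1 → ZMod 2 => GdT J1 (ext α) g := by
  unfold PrT fr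
  have h6 : Nat.card (prs J1 → F) = 2 ^ (prs J1).card := by
    rw [Nat.card_fun, Nat.card_eq_fintype_card, Nat.card_eq_fintype_card, ZMod.card,
      Fintype.card_coe]
  rw [h6, Nat.card_eq_fintype_card, Fintype.card_subtype]
  push_cast
  rfl

theorem PrT_sub (h : S_SYM) (g : ι → F) (T : Submodule F (ι → F)) (h1 : (ov : ι → F) ∉ T)
    (hN : ∀ α : prs (univ : Finset ι) → F,
      Ns (bf (mM α g)) ↔ Ns ((bf (mM α g)).domRestrict₁₂ T T)) :
    PrT univ g = sp (finrank F T) := by
  have hon : (ov : ι → F) ≠ 0 := fun h0 => h1 (h0 ▸ T.zero_mem)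
  rw [← fr_Ns (V := T) h, PrT_eq_fr]
  set S0 : Sy T := ⟨(bf (mM 0 g)).domRestrict₁₂ T T, fun x y => bf_symm _ (mM_symm 0 g) x y⟩ with hS0
  rw [← fr_equiv (Equiv.addRight S0) (fun S : Sy T => Ns S.1), ← fr_comp (pT T) (pT_surj T h1 hon)]
  congr 1
  funext α
  apply propext
  rw [gdT_iff, hN]
  have e := bf_mM_add α 0 0 g
  rw [add_zero, zero_add] at e
  rw [e]
  exact Iff.rfl

/-- the sum of the diagonal is one -/
theorem PrT_one (h : S_SYM) (g : ι → F) (hg : ∑ k, g k = 1) :
    PrT univ g = sp (Fintype.card ι - 1) := by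
  have g1 : gm g ov = 1 := by
    rw [gm_apply, ← hg]
    exact Finset.sum_congr rfl fun k _ => mul_one _
  have hr : finrank F (LinearMap.ker (gm g)) = Fintype.card ι - 1 := by
    have h2 := LinearMap.finrank_range_add_finrank_ker (gm g)
    have h3 : LinearMap.range (gm g) = ⊤ := by
      rw [LinearMap.range_eq_top]
      intro c
      refine ⟨c • ov, ?_⟩
      rw [map_smul, g1, smul_eq_mul, mul_one]
    rw [h3, finrank_top, finrank_self, finrank_fintype_fun_eq_card] at h2
    omega
  rw [← hr]
  refine PrT_sub h g _ (fun h0 => ?_) fun α => ?_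
  · rw [LinearMap.mem_ker, g1] at h0
    exact one_ne_zero h0
  · have hd : ∀ y : ι → F, y + gm g y • ov ∈ LinearMap.ker (gm g) := by
      intro y
      rw [LinearMap.mem_ker, map_add, map_smul, g1, smul_eq_mul, mul_one, char2]
    constructor
    · intro hB x hx
      have h0 : (x : ι → F) = 0 := by
        refine hB x fun y => ?_
        have h2 := hx ⟨_, hd y⟩
        rw [LinearMap.domRestrict₁₂_apply] at h2
        simp only [map_add, map_smul] at h2
        rw [bf_one', LinearMap.mem_ker.1 x.2, smul_zero, add_zero] at h2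
        exact h2
      exact Subtype.ext h0
    · intro hB x hx
      have h2 : x ∈ LinearMap.ker (gm g) := by
        rw [LinearMap.mem_ker, ← bf_one' α g]
        exact hx ov
      have h3 := hB ⟨x, h2⟩ fun y => by
        rw [LinearMap.domRestrict₁₂_apply]
        exact hx y
      exact congrArg Subtype.val h3

/-- the sum of the diagonal is zero, but the diagonal is not -/
theorem PrT_zero (h : S_SYM) (g : ι → F) (hg : ∑ k, g k = 0) (j : ι) (hj : g j ≠ 0) :
    PrT univ g = sp (Fintype.card ι - 2) := by
  have hj1 : g j = 1 := by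
    have : ∀ a : ZMod 2, a ≠ 0 → a = 1 := by decide
    exact this _ hj
  have g1 : gm g ov = 0 := by
    rw [gm_apply, ← hg]
    exact Finset.sum_congr rfl fun k _ => mul_one _
  obtain ⟨i, hi⟩ : ∃ i, i ≠ j := by
    by_contra hcon
    push Not at hcon
    have h2 : ∑ k, g k = g j := by
      rw [Finset.sum_eq_single j]
      · intro b _ hb
        exact absurd (hcon b) hb
      · intro h
        exact absurd (mem_univ j) h
    rw [hg, hj1] at h2
    exact zero_ne_one h2
  set ej : ι → F := Pi.single j 1 with hej
  have gj : gm g ej = 1 := by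
    rw [gm_apply, Finset.sum_eq_single j]
    · rw [hej, Pi.single_eq_same, hj1, mul_one]
    · intro k _ hk
      rw [hej, Pi.single_eq_of_ne hk, mul_zero]
    · intro h
      exact absurd (mem_univ j) h
  have eji : ej i = 0 := by rw [hej, Pi.single_eq_of_ne hi]
  set θ : (ι → F) →ₗ[F] F × F := (gm g).prod (LinearMap.proj i) with hθ
  have hθa : ∀ x : ι → F, θ x = (gm g x, x i) := fun x => rfl
  have hmem : ∀ x : ι → F, x ∈ LinearMap.ker θ ↔ gm g x = 0 ∧ x i = 0 := by
    intro x
    rw [LinearMap.mem_ker, hθa, Prod.mk_eq_zero]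
  have hr : finrank F (LinearMap.ker θ) = Fintype.card ι - 2 := by
    have h2 := LinearMap.finrank_range_add_finrank_ker θ
    have h3 : LinearMap.range θ = ⊤ := by
      rw [LinearMap.range_eq_top]
      rintro ⟨a, b⟩
      refine ⟨a • ej + b • ov, ?_⟩
      rw [map_add, map_smul, map_smul, hθa, hθa, gj, g1, eji]
      unfold ov
      simp
    rw [h3, finrank_top, finrank_prod, finrank_self, finrank_fintype_fun_eq_card] at h2
    omega
  rw [← hr]
  refine PrT_sub h g _ (fun h0 => ?_) fun α => ?_
  · exact one_ne_zero ((hmem _).1 h0).2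
  · have hd : ∀ y : ι → F, gm g y = 0 → y + y i • ov ∈ LinearMap.ker θ := by
      intro y hy
      rw [hmem]
      refine ⟨?_, ?_⟩
      · rw [map_add, map_smul, hy, g1, smul_zero, add_zero]
      · show y i + y i * 1 = 0
        rw [mul_one, char2]
    constructor
    · intro hB x hx
      have hx0 := (hmem x).1 x.2
      have h2 : ∀ y : ι → F, gm g y = 0 → bf (mM α g) x y = 0 := by
        intro y hy
        have h3 := hx ⟨_, hd y hy⟩
        rw [LinearMap.domRestrict₁₂_apply] at h3
        simp only [map_add, map_smul] at h3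
        rw [bf_one', hx0.1, smul_zero, add_zero] at h3
        exact h3
      set c : F := bf (mM α g) x ej with hc
      have h3 : ∀ y : ι → F, bf (mM α g) x y = gm g y * c := by
        intro y
        have h4 := h2 (y + gm g y • ej) (by
          rw [map_add, map_smul, gj, smul_eq_mul, mul_one, char2])
        rw [map_add, map_smul, smul_eq_mul] at h4
        exact CharTwo.add_eq_zero.1 h4
      have h4 : (x : ι → F) + c • ov = 0 := by
        refine hB _ fun y => ?_
        rw [map_add, map_smul, LinearMap.add_apply, LinearMap.smul_apply, bf_one, h3 y,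
          smul_eq_mul, mul_comm, char2]
      have h5 : c = 0 := by
        have h6 := congrFun h4 i
        have h7 : (x : ι → F) i + c * 1 = 0 := h6
        rw [hx0.2, zero_add, mul_one] at h7
        exact h7
      rw [h5, zero_smul, add_zero] at h4
      exact Subtype.ext h4
    · intro hB x hx
      have h2 : gm g x = 0 := by
        rw [← bf_one' α g]
        exact hx ov
      have h3 := hB ⟨_, hd x h2⟩ fun y => by
        rw [LinearMap.domRestrict₁₂_apply]
        show bf (mM α g) (x + x i • ov) y = 0
        rw [map_add, map_smul, LinearMap.add_apply, LinearMap.smul_apply, hx, bf_one,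
          ((hmem _).1 y.2).1, smul_zero, add_zero]
      have h4 : x + x i • ov = 0 := congrArg Subtype.val h3
      have h5 : x i = 0 := by
        have h6 := hx ej
        have h7 : x = x i • ov := by
          funext k
          exact CharTwo.add_eq_zero.1 (congrFun h4 k)
        rw [h7, map_smul, LinearMap.smul_apply, bf_one, gj, smul_eq_mul, mul_one] at h6
        exact h6
      rw [h5, zero_smul, add_zero] at h4
      exact h4

/-- the diagonal is zero -/
theorem PrT_none [Nonempty ι] : PrT (univ : Finset ι) (fun _ => 0) = 0 := by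
  unfold PrT
  rw [Finset.filter_false_of_mem, Finset.card_empty, Nat.cast_zero, zero_div]
  intro α _ h
  obtain ⟨i⟩ := (inferInstance : Nonempty ι)
  refine one_ne_zero (h (fun _ => 1) (fun k hk => absurd (mem_univ k) hk) (fun k _ => ?_) i)
  simp only [char2, mul_zero, Finset.sum_const_zero, zero_mul, add_zero]

end Run7.h268.FN
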