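import Pool.Agent.R413.SQ.BOX
import Pool.Agent.Run7.h268.FN.Rnd
import Pool.Agent.Run7.h268.FN.Cnt

/-!
# A fixed number of primes: the count in a box and the sum over the boxes, for arbitrary markings

Adapted from `Pool.Agent.V11291.FK.Box` and `Pool.Agent.V11291.FK.Tup`: the marked primes are any primes
`1` modulo `4`, the other primes are any odd primes, and there need not be any.
-/

set_option autoImplicit false

open scoped Classical

namespace Run7.h268.FN

open Finset
open Pool.Agent.Y703.CX (sm la jj XX)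
open Pool.Agent.Y703.CQ (nr sg prs HB S_EQ ext)
open Pool.Agent.Y703.CQ.K302 (le_XX prs_card root12)
open Pool.Agent.Y219.CQ (mem_prs ext_self ext_pos ext_neg)
open Pool.Agent.R413.SQ.BOX (nr_self nr_symm HB_sub)
open Pool.Agent.V11291.FK (Tup Exc bx mem_Tup fib_eq fib_empty)

/-- a function set to zero on the primes which are not marked -/
noncomputable def cuM (m : ℕ → Prop) (x : ℕ → ZMod 2) (q : ℕ) : ZMod 2 := if m q then x q else 0

/-- the kernel of the matrix -/
def SolM (m : ℕ → Prop) (f : ℕ → ZMod 2) (S : Finset ℕ) (x : ℕ → ZMod 2) : Prop :=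
  ∀ p ∈ S, m p → ∑ q ∈ S, nr p q * (cuM m x q + x p) + f p * x p = 0

/-- the matrix is nonsingular -/
def GdM (m : ℕ → Prop) (f : ℕ → ZMod 2) (S : Finset ℕ) : Prop :=
  ∀ x, SolM m f S x → ∀ p ∈ S, m p → x p = 0

section one

variable {ι : Type} [Fintype ι] [LinearOrder ι] {J1 : Finset ι} {p : ι → ℕ} {m : ℕ → Prop}

theorem ext_eq (hpr : ∀ i, (p i).Prime ∧ p i ≠ 2 ∧ (m (p i) → p i % 4 = 1))
    (hJ : ∀ i, i ∈ J1 ↔ m (p i)) {k : ι} (hk : k ∈ J1) (l : ι) :
    ext (fun e : prs J1 => nr (p e.1.1) (p e.1.2)) k l = nr (p k) (p l) := by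
  by_cases hkl : l = k
  · rw [hkl, ext_self, nr_self]
  by_cases h : (k, l) ∈ prs J1
  · rw [ext_pos J1 _ h]
  · have h1 : l ∈ J1 ∧ ¬ k < l := by
      by_contra hcon
      refine h ((mem_prs J1 k l).2 ⟨hk, hkl, fun hl => ?_⟩)
      by_contra h2
      exact hcon ⟨hl, h2⟩
    have h2 : (l, k) ∈ prs J1 :=
      (mem_prs J1 l k).2 ⟨h1.1, fun h3 => hkl h3.symm, fun _ => lt_of_le_of_ne (not_lt.1 h1.2) hkl⟩
    rw [ext_neg J1 _ h2 hk]
    exact nr_symm (hpr l).1 ((hpr l).2.2 ((hJ l).1 h1.1)) (hpr k).1 (hpr k).2.1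

theorem gd_iff (hp : Function.Injective p)
    (hpr : ∀ i, (p i).Prime ∧ p i ≠ 2 ∧ (m (p i) → p i % 4 = 1)) (hJ : ∀ i, i ∈ J1 ↔ m (p i))
    (f : ℕ → ZMod 2) :
    GdM m f (univ.image p) ↔
      GdT J1 (ext fun e : prs J1 => nr (p e.1.1) (p e.1.2)) fun i => f (p i) := by
  have hsum : ∀ h : ℕ → ZMod 2, ∑ q ∈ univ.image p, h q = ∑ l, h (p l) := fun h =>
    Finset.sum_image fun a _ b _ h => hp h
  have hex : ∀ k ∈ J1, ∀ (y : ι → ZMod 2) (c : ZMod 2),
      ∑ l, ext (fun e : prs J1 => nr (p e.1.1) (p e.1.2)) k l * (y l + c) =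
        ∑ l, nr (p k) (p l) * (y l + c) := by
    intro k hk y c
    exact Finset.sum_congr rfl fun l _ => by rw [ext_eq hpr hJ hk l]
  constructor
  · intro h y hy0 hy
    obtain ⟨x, hx⟩ : ∃ x : ℕ → ZMod 2, x = fun n => if h : ∃ l, p l = n then y h.choose else 0 :=
      ⟨_, rfl⟩
    have hxp : ∀ l, x (p l) = y l := by
      intro l
      have hex : ∃ l', p l' = p l := ⟨l, rfl⟩
      rw [hx]
      simp only
      rw [dif_pos hex]
      exact congrArg y (hp hex.choose_spec)
    have hcu : ∀ l, cuM m x (p l) = y l := by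
      intro l
      unfold cuM
      by_cases hm : m (p l)
      · rw [if_pos hm, hxp]
      · rw [if_neg hm]
        exact (hy0 l fun hl => hm ((hJ l).1 hl)).symm
    have hs : SolM m f (univ.image p) x := by
      intro q hq hmq
      rw [mem_image] at hq
      obtain ⟨k, -, rfl⟩ := hq
      have hk := (hJ k).2 hmq
      rw [hsum, hxp, ← hy k hk, hex k hk]
      congr 1
      exact Finset.sum_congr rfl fun l _ => by rw [hcu]
    intro k
    by_cases hk : k ∈ J1
    · rw [← hxp]
      exact h x hs (p k) (mem_image_of_mem _ (mem_univ k)) ((hJ k).1 hk)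
    · exact hy0 k hk
  · intro h x hs q hq hmq
    rw [mem_image] at hq
    obtain ⟨k, -, rfl⟩ := hq
    have hcu : ∀ l ∈ J1, cuM m x (p l) = x (p l) := by
      intro l hl
      unfold cuM
      rw [if_pos ((hJ l).1 hl)]
    have h1 := h (fun l => cuM m x (p l)) (fun l hl => by
        unfold cuM
        rw [if_neg fun hm => hl ((hJ l).2 hm)]) (fun l hl => by
        have h2 := hs (p l) (mem_image_of_mem _ (mem_univ l)) ((hJ l).1 hl)
        rw [hsum] at h2
        simp only
        rw [hex l hl, hcu l hl]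
        exact h2) k
    rw [← hcu k ((hJ k).2 hmq)]
    exact h1

end one

/-- **The count in a box.** -/
theorem boxM (hEQ : S_EQ) (m : ℕ → Prop) (f : ℕ → ZMod 2) {ι : Type} [Fintype ι] [LinearOrder ι]
    (J1 : Finset ι) (C : ι → Finset ℕ) (X : ι → ℕ) (κ a : ℝ) (hκ : 0 ≤ κ)
    (hCX : ∀ i, (C i).card ≤ X i) (hHB : HB J1 C X κ)
    (hC : ∀ i, ∀ p ∈ C i, p.Prime ∧ p ≠ 2 ∧ (m p → p % 4 = 1) ∧ (i ∈ J1 ↔ m p))
    (hdis : ∀ i l, i ≠ l → Disjoint (C i) (C l))
    (ha : ∀ p ∈ Fintype.piFinset C, PrT J1 (fun i => f (p i)) = a) :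
    |(((Fintype.piFinset C).filter fun p => GdM m f (univ.image p)).card : ℝ) -
        a * ((Fintype.piFinset C).card : ℝ)| ≤
      2 ^ (Fintype.card ι + (prs J1).card) * (κ * ∏ j, (X j : ℝ)) := by
  set R : ℝ := 2 ^ (prs J1).card * (κ * ∏ j, (X j : ℝ)) with hR
  have hR0 : 0 ≤ R := mul_nonneg (by positivity)
    (mul_nonneg hκ (Finset.prod_nonneg fun j _ => by positivity))
  -- facts on tuples
  have hinj : ∀ p ∈ Fintype.piFinset C, Function.Injective p := by
    intro p hp i j hij
    rw [Fintype.mem_piFinset] at hp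
    by_contra hne
    have h1 := Finset.disjoint_left.1 (hdis i j hne) (hp i)
    rw [hij] at h1
    exact h1 (hp j)
  have hJ : ∀ p ∈ Fintype.piFinset C, ∀ i, i ∈ J1 ↔ m (p i) := by
    intro p hp i
    rw [Fintype.mem_piFinset] at hp
    exact (hC i _ (hp i)).2.2.2
  have hpr : ∀ p ∈ Fintype.piFinset C, ∀ i, (p i).Prime ∧ p i ≠ 2 ∧ (m (p i) → p i % 4 = 1) := by
    intro p hp i
    rw [Fintype.mem_piFinset] at hp
    exact ⟨(hC i _ (hp i)).1, (hC i _ (hp i)).2.1, (hC i _ (hp i)).2.2.1⟩
  -- the part with given labels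
  have h1 : ∀ β : ι → ZMod 2,
      |(((Fintype.piFinset C).filter fun p => (fun i => f (p i)) = β ∧
          GdM m f (univ.image p)).card : ℝ) -
        a * (((Fintype.piFinset C).filter fun p => (fun i => f (p i)) = β).card : ℝ)| ≤
      R := by
    intro β
    rcases ((Fintype.piFinset C).filter fun p => (fun i => f (p i)) = β).eq_empty_or_nonempty with
      hemp | ⟨p₀, hp₀⟩
    · have hemp2 : ((Fintype.piFinset C).filter fun p => (fun i => f (p i)) = β ∧
          GdM m f (univ.image p)) = ∅ := by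
        rw [← Finset.filter_filter, hemp, Finset.filter_empty]
      rw [hemp, hemp2, Finset.card_empty, Nat.cast_zero, mul_zero, sub_zero, abs_zero]
      exact hR0
    rw [Finset.mem_filter] at hp₀
    have haβ : PrT J1 β = a := by
      rw [← hp₀.2]
      exact ha p₀ hp₀.1
    set C' : ι → Finset ℕ := fun i => (C i).filter fun q => f q = β i with hC'
    have hpi : (Fintype.piFinset C).filter (fun p => (fun i => f (p i)) = β) =
        Fintype.piFinset C' := by
      ext p
      simp only [Finset.mem_filter, Fintype.mem_piFinset, hC']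
      constructor
      · rintro ⟨h2, h3⟩ i
        exact ⟨h2 i, congrFun h3 i⟩
      · intro h2
        exact ⟨fun i => (h2 i).1, funext fun i => (h2 i).2⟩
    set Q : (prs J1 → ZMod 2) → Prop := fun α => GdT J1 (ext α) β with hQ
    have h2 : ((univ.filter Q).card : ℝ) / 2 ^ (prs J1).card = a := haβ
    have h3 := hEQ ι J1 C' X κ hκ
      (fun i => (Finset.card_le_card (Finset.filter_subset _ _)).trans (hCX i))
      (HB_sub hHB fun i q => f q = β i) Q
    have h4 : ((Fintype.piFinset C).filter fun p => (fun i => f (p i)) = β ∧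
        GdM m f (univ.image p)) = ((Fintype.piFinset C').filter fun p =>
          Q fun e => nr (p e.1.1) (p e.1.2)) := by
      rw [← hpi, Finset.filter_filter]
      refine Finset.filter_congr fun p hp => ?_
      refine and_congr_right fun hl => ?_
      rw [gd_iff (hinj p hp) (hpr p hp) (hJ p hp) f, hl]
    have h5 : (((Fintype.piFinset C').card : ℕ) : ℝ) = ∏ j, ((C' j).card : ℝ) := by
      rw [Fintype.card_piFinset]
      push_cast
      rfl
    rw [h4, hpi, h5, ← h2]
    exact h3
  have hfib : ∀ T : (ι → ℕ) → Prop,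
      (((Fintype.piFinset C).filter fun p => T p).card : ℝ) =
      ∑ β : ι → ZMod 2, (((Fintype.piFinset C).filter fun p =>
        (fun i => f (p i)) = β ∧ T p).card : ℝ) := by
    intro T
    rw [Finset.card_eq_sum_card_fiberwise (f := fun (p : ι → ℕ) (i : ι) => f (p i))
      (t := univ) (fun p _ => Finset.mem_coe.2 (Finset.mem_univ _))]
    push_cast
    refine Finset.sum_congr rfl fun β hβ => ?_
    congr 2
    ext p
    simp only [Finset.mem_filter]
    tauto
  have hf1 := hfib fun p => GdM m f (univ.image p)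
  have hf2 := hfib fun _ => True
  simp only [and_true, Finset.filter_true] at hf2
  rw [hf1, hf2, Finset.mul_sum, ← Finset.sum_sub_distrib]
  refine (Finset.abs_sum_le_sum_abs _ _).trans ?_
  refine (Finset.sum_le_sum fun β _ => h1 β).trans ?_
  rw [Finset.sum_const, nsmul_eq_mul, Finset.card_univ, Fintype.card_fun, ZMod.card, pow_add,
    mul_assoc, hR]
  push_cast
  exact le_rfl

section tup

variable {ι : Type} [Fintype ι] [LinearOrder ι]

/-- **The sum over the boxes.** -/
theorem sum_boxesM (hEQ : S_EQ) (hB : Pool.Agent.R413.SQ.S_BIL) (J1 : Finset ι) :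
    ∃ C : ℝ, 1 ≤ C ∧ ∀ (m : ℕ → Prop) (P : ι → ℕ → Prop) (f : ℕ → ZMod 2) (X z H N : ℕ)
      (κ a : ℝ),
      (∀ i p, P i p → p.Prime ∧ p ≠ 2 ∧ (m p → p % 4 = 1) ∧ (i ∈ J1 ↔ m p)) →
      (∀ p : ι → ℕ, (∀ i, P i (p i)) → PrT J1 (fun i => f (p i)) = a) →
      1 ≤ H → 1 ≤ z → 0 ≤ κ → C ≤ κ ^ 12 * z → (H : ℝ) * Real.log X < N →
      |(((Tup P X).filter fun p => ¬ Exc X z H p ∧ GdM m f (univ.image p)).card : ℝ) -
          a * (((Tup P X).filter fun p => ¬ Exc X z H p).card : ℝ)| ≤
        (N : ℝ) ^ Fintype.card ι * (2 ^ (Fintype.card ι + Fintype.card ι ^ 2) * (κ * X)) := by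
  obtain ⟨C, hC, hB⟩ := hB
  refine ⟨C, hC, ?_⟩
  intro m P f X z H N κ a hP ha hH hz hκ hκz hN
  have hPp : ∀ i p, P i p → p.Prime := fun i p h => (hP i p h).1
  have hz0 : (0 : ℝ) < z := by exact_mod_cast hz
  -- the value in a box
  set B : Finset (ι → ℕ) := Fintype.piFinset fun _ : ι => range N with hBd
  have hmem : ∀ p ∈ Tup P X, (fun i => jj H (p i)) ∈ B := by
    intro p hp
    rw [mem_Tup hPp] at hp
    rw [hBd, Fintype.mem_piFinset]
    intro i
    rw [mem_range]
    have hp0 := (hPp i _ (hp.1 i)).pos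
    have hqX : p i ≤ X := by
      refine le_trans ?_ hp.2.2
      exact Nat.le_of_dvd (Finset.prod_pos fun j _ => (hPp j _ (hp.1 j)).pos)
        (Finset.dvd_prod_of_mem _ (mem_univ i))
    have h3 : ((jj H (p i) : ℕ) : ℝ) < N := by
      refine lt_of_le_of_lt (Nat.floor_le (mul_nonneg (Nat.cast_nonneg _)
        (Real.log_nonneg (by exact_mod_cast hp0)))) ?_
      refine lt_of_le_of_lt ?_ hN
      refine mul_le_mul_of_nonneg_left ?_ (Nat.cast_nonneg _)
      exact Real.log_le_log (by exact_mod_cast hp0) (by exact_mod_cast hqX)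
    exact_mod_cast h3
  have hfib : ∀ T : (ι → ℕ) → Prop,
      (((Tup P X).filter fun p => ¬ Exc X z H p ∧ T p).card : ℝ) =
      ∑ b ∈ B, ((((Tup P X).filter fun p => ¬ Exc X z H p ∧
        (fun i => jj H (p i)) = b).filter T).card : ℝ) := by
    intro T
    rw [Finset.card_eq_sum_card_fiberwise (f := fun (p : ι → ℕ) (i : ι) => jj H (p i))
      (t := B) (fun p hp => by
        rw [mem_coe, mem_filter] at hp
        exact mem_coe.2 (hmem p hp.1))]
    push_cast
    refine Finset.sum_congr rfl fun b _ => ?_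
    congr 2
    ext p
    simp only [mem_filter]
    tauto
  have hf1 := hfib fun p => GdM m f (univ.image p)
  have hf2 := hfib fun _ => True
  simp only [and_true, Finset.filter_true] at hf2
  rw [hf1, hf2, Finset.mul_sum, ← Finset.sum_sub_distrib]
  refine (Finset.abs_sum_le_sum_abs _ _).trans ?_
  have hbox : ∀ b ∈ B, |((((Tup P X).filter fun p => ¬ Exc X z H p ∧
        (fun i => jj H (p i)) = b).filter fun p => GdM m f (univ.image p)).card : ℝ) -
      a * (((Tup P X).filter fun p => ¬ Exc X z H p ∧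
        (fun i => jj H (p i)) = b).card : ℝ)| ≤
      2 ^ (Fintype.card ι + Fintype.card ι ^ 2) * (κ * X) := by
    intro b _
    by_cases hb : Function.Injective b ∧ ∏ i, XX H (b i) ≤ X
    · rw [fib_eq hPp hH hb.1 hb.2]
      have hmb : ∀ i, ∀ p ∈ bx P z H b i, P i p ∧ jj H p = b i ∧ z < p ∧ p ≤ XX H (b i) := by
        intro i p hp
        unfold bx at hp
        rw [mem_filter, mem_Icc] at hp
        exact ⟨hp.2.1, hp.2.2.1, hp.2.2.2, hp.1.2⟩
      have hdis : ∀ i l, i ≠ l → Disjoint (bx P z H b i) (bx P z H b l) := by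
        intro i l hil
        rw [Finset.disjoint_left]
        intro p hp hp'
        exact hil (hb.1 ((hmb i p hp).2.1.symm.trans (hmb l p hp').2.1))
      have h1 := boxM hEQ m f J1 (bx P z H b) (fun i => XX H (b i)) κ a hκ
        (fun i => by
          refine (Finset.card_filter_le _ _).trans ?_
          rw [Nat.card_Icc]
          omega)
        (by
          intro i l hil hi c d hc hd
          have hk0 : (0 : ℝ) ≤ κ * ((XX H (b i) : ℝ) * (XX H (b l) : ℝ)) := by positivity
          rcases (bx P z H b i).eq_empty_or_nonempty with he | ⟨p₀, hp₀⟩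
          · rw [he, Finset.sum_empty, norm_zero]
            exact hk0
          rcases (bx P z H b l).eq_empty_or_nonempty with he | ⟨q₀, hq₀⟩
          · rw [he]
            simp only [Finset.sum_empty, Finset.sum_const_zero, norm_zero]
            exact hk0
          have hzi : z ≤ XX H (b i) := by
            have := hmb i p₀ hp₀
            omega
          have hzl : z ≤ XX H (b l) := by
            have := hmb l q₀ hq₀
            omega
          have h3 := hB (bx P z H b i) (bx P z H b l) (XX H (b i)) (XX H (b l)) z c d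
            (fun p hp => by
              have h4 := hmb i p hp
              have h5 := hP i p h4.1
              exact ⟨h5.1, h5.2.2.1 (h5.2.2.2.1 hi), h4.2.2.2⟩)
            (fun p hp => by
              have h4 := hmb l p hp
              have h5 := hP l p h4.1
              exact ⟨h5.1, h5.2.1, h4.2.2.2⟩)
            (hdis i l hil) hz hzi hzl hc hd
          exact root12 (norm_nonneg _) hκ (Nat.cast_nonneg _) (Nat.cast_nonneg _) hz0 h3 hκz)
        (fun i p hp => hP i p (hmb i p hp).1) hdis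
        (fun p hp => ha p fun i => (hmb i _ (Fintype.mem_piFinset.1 hp i)).1)
      refine h1.trans ?_
      have h2 : ∏ j, ((XX H (b j) : ℕ) : ℝ) ≤ X := by exact_mod_cast hb.2
      have h3 : (prs J1).card ≤ Fintype.card ι ^ 2 := by
        rw [pow_two]
        exact prs_card J1
      have h4 : κ * ∏ j, ((XX H (b j) : ℕ) : ℝ) ≤ κ * X := mul_le_mul_of_nonneg_left h2 hκ
      have h5 : (0 : ℝ) ≤ κ * ∏ j, ((XX H (b j) : ℕ) : ℝ) :=
        mul_nonneg hκ (Finset.prod_nonneg fun j _ => by positivity)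
      refine mul_le_mul ?_ h4 h5 (by positivity)
      exact pow_le_pow_right₀ (by norm_num) (by omega)
    · rw [fib_empty hb]
      simp only [Finset.filter_empty, Finset.card_empty, Nat.cast_zero, mul_zero, sub_zero, abs_zero]
      positivity
  refine (Finset.sum_le_sum hbox).trans ?_
  rw [Finset.sum_const, nsmul_eq_mul, hBd, Fintype.card_piFinset]
  simp only [Finset.card_range, Finset.prod_const, Finset.card_univ]
  push_cast
  exact le_rfl

end tup

end Run7.h268.FN
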