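import Pool.Agent.Run7.h268.FN.Law
import Pool.Agent.V11291.FK.Cub3

/-!
# A fixed number of primes: families with two kinds of primes, and primes in residue classes
-/

set_option autoImplicit false

open scoped Classical

namespace Run7.h268.FN

open Finset Filter Topology
open Pool.Agent.V11291.FK (PG QG Dn)

/-- the kinds -/
def ty (a b u v : ℕ) : Fin a ⊕ Fin b → ℕ := Sum.elim (fun _ => u) fun _ => v

theorem card_ty (a b u v r : ℕ) : (univ.filter fun i => ty a b u v i = r).card =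
    (if u = r then a else 0) + if v = r then b else 0 := by
  unfold ty
  rw [Finset.card_filter, Fintype.sum_sum_type]
  by_cases h1 : u = r <;> by_cases h2 : v = r <;> simp [h1, h2]

theorem qg_iff {cl : ℕ → ℕ} {a b u v : ℕ} (huv : u ≠ v) {S : Finset ℕ} :
    QG cl (ty a b u v) S ↔ (∀ p ∈ S, cl p = u ∨ cl p = v) ∧
      (S.filter fun p => cl p = u).card = a ∧ (S.filter fun p => cl p = v).card = b := by
  unfold QG
  constructor
  · intro h
    refine ⟨fun p hp => ?_, ?_, ?_⟩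
    · by_contra hcon
      rw [not_or] at hcon
      have h1 := h (cl p)
      rw [card_ty, if_neg fun h => hcon.1 h.symm, if_neg fun h => hcon.2 h.symm, add_zero,
        Finset.card_eq_zero] at h1
      have h2 : p ∈ S.filter fun q => cl q = cl p := mem_filter.2 ⟨hp, rfl⟩
      rw [h1] at h2
      exact absurd h2 (Finset.notMem_empty _)
    · rw [h u, card_ty, if_pos rfl, if_neg huv.symm, add_zero]
    · rw [h v, card_ty, if_neg huv, if_pos rfl, zero_add]
  · rintro ⟨h1, h2, h3⟩ r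
    rw [card_ty]
    by_cases hu : u = r
    · subst hu
      rw [if_pos rfl, if_neg huv.symm, add_zero]
      exact h2
    · by_cases hv : v = r
      · subst hv
        rw [if_neg hu, if_pos rfl, zero_add]
        exact h3
      · rw [if_neg hu, if_neg hv, add_zero, Finset.card_eq_zero]
        refine Finset.filter_eq_empty_iff.2 fun p hp h => ?_
        rcases h1 p hp with h4 | h4
        · exact hu (h4.symm.trans h)
        · exact hv (h4.symm.trans h)

/-- the order on the index type -/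
noncomputable abbrev ordS (a b : ℕ) : LinearOrder (Fin a ⊕ Fin b) :=
  LinearOrder.lift' (Fintype.equivFin (Fin a ⊕ Fin b)) (Fintype.equivFin (Fin a ⊕ Fin b)).injective

theorem card_S (a b : ℕ) : Fintype.card (Fin a ⊕ Fin b) = a + b := by
  rw [Fintype.card_sum, Fintype.card_fin, Fintype.card_fin]

/-- the number of the marked indices -/
theorem card_JM (M : ℕ → Prop) (a b u v : ℕ) (hu : M u) (hv : ¬ M v) :
    (JM M (ty a b u v)).card = a := by
  unfold JM
  rw [Finset.card_filter, Fintype.sum_sum_type]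
  unfold ty
  simp [hu, hv]

theorem JM_all (M : ℕ → Prop) (a b u v : ℕ) (hu : M u) (hv : M v) :
    JM M (ty a b u v) = univ := by
  unfold JM
  refine Finset.filter_true_of_mem fun i _ => ?_
  rcases i with i | i
  · exact hu
  · exact hv

/-- positive lower density, from the counting function as a cardinality -/
theorem dn_of {P Q : ℕ → Prop} {δ : ℝ} {Y₀ : ℕ} (hδ : 0 < δ)
    (h : ∀ Y : ℕ, Y₀ ≤ Y → δ * (Y / Real.log Y) ≤ (Nat.card {p : ℕ // p ≤ Y ∧ Q p} : ℝ))
    (hPQ : ∀ p, Q p → P p) : Dn P := by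
  refine ⟨δ, Y₀, hδ, fun Y hY => (h Y hY).trans ?_⟩
  have e : Nat.card {p : ℕ // p ≤ Y ∧ Q p} = ((range (Y + 1)).filter Q).card := by
    refine Nat.subtype_card _ fun p => ?_
    rw [mem_filter, mem_range, Nat.lt_succ_iff]
  rw [e]
  exact_mod_cast Finset.card_le_card (Finset.monotone_filter_right _ fun p _ => hPQ p)

theorem card_of_dn {Q : ℕ → Prop} (h : Dn Q) : ∃ (δ : ℝ) (Y₀ : ℕ), 0 < δ ∧ ∀ Y : ℕ, Y₀ ≤ Y →
    δ * (Y / Real.log Y) ≤ (Nat.card {p : ℕ // p ≤ Y ∧ Q p} : ℝ) := by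
  obtain ⟨δ, Y₀, hδ, h⟩ := h
  refine ⟨δ, Y₀, hδ, fun Y hY => (h Y hY).trans (le_of_eq ?_)⟩
  congr 1
  symm
  refine Nat.subtype_card _ fun p => ?_
  rw [mem_filter, mem_range, Nat.lt_succ_iff]

/-- the numbers up to `X` -/
theorem card_Icc (X : ℕ) (Q : ℕ → Prop) :
    Nat.card {D : ℕ // 1 ≤ D ∧ D ≤ X ∧ Q D} = ((Icc 1 X).filter Q).card := by
  refine Nat.subtype_card _ fun D => ?_
  rw [mem_filter, mem_Icc, and_assoc]

/-- the number of the prime factors with a property -/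
theorem card_pf {D : ℕ} (hD : D ≠ 0) (P : ℕ → Prop) :
    Nat.card {p : ℕ // p.Prime ∧ p ∣ D ∧ P p} = (D.primeFactors.filter P).card := by
  refine Nat.subtype_card _ fun p => ?_
  rw [mem_filter, Nat.mem_primeFactors]
  exact ⟨fun h => ⟨h.1.1, h.1.2.1, h.2⟩, fun h => ⟨⟨h.1, h.2.1, hD⟩, h.2.2⟩⟩

/-- no prime factor has the property -/
theorem card_pf_zero {D : ℕ} (hD : D ≠ 0) (P : ℕ → Prop) :
    Nat.card {p : ℕ // p.Prime ∧ p ∣ D ∧ P p} = 0 ↔ ∀ p ∈ D.primeFactors, ¬ P p := by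
  rw [card_pf hD, Finset.card_eq_zero, Finset.filter_eq_empty_iff]

theorem card_pf_congr {D : ℕ} (hD : D ≠ 0) {P Q : ℕ → Prop} (h : ∀ p ∈ D.primeFactors, (P p ↔ Q p)) :
    Nat.card {p : ℕ // p.Prime ∧ p ∣ D ∧ P p} = Nat.card {p : ℕ // p.Prime ∧ p ∣ D ∧ Q p} := by
  rw [card_pf hD, card_pf hD]
  exact congrArg Finset.card (Finset.filter_congr fun p hp => h p hp)

theorem famN_iff {A : ℕ → Prop} {cl : ℕ → ℕ} {a b u v : ℕ} (huv : u ≠ v) {D : ℕ} :
    FamN A cl (ty a b u v) D ↔ Squarefree D ∧ (∀ p ∈ D.primeFactors, A p) ∧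
      (∀ p ∈ D.primeFactors, cl p = u ∨ cl p = v) ∧
      Nat.card {p : ℕ // p.Prime ∧ p ∣ D ∧ cl p = u} = a ∧
      Nat.card {p : ℕ // p.Prime ∧ p ∣ D ∧ cl p = v} = b := by
  unfold FamN
  refine and_congr_right fun h1 => and_congr_right fun _ => ?_
  rw [qg_iff huv, card_pf h1.ne_zero, card_pf h1.ne_zero]
  exact ⟨fun ⟨h2, h3, h4⟩ => ⟨h2, by convert h3, by convert h4⟩,
    fun ⟨h2, h3, h4⟩ => ⟨h2, by convert h3, by convert h4⟩⟩

/-- the number of the `D` with `1 ≤ D ≤ X` and `Q D` -/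
noncomputable def cnt (Q : ℕ → Prop) (X : ℕ) : ℕ := Nat.card {D : ℕ // 1 ≤ D ∧ D ≤ X ∧ Q D}

/-- **The law for the families with two kinds of primes.** -/
theorem law_ty {A : ℕ → Prop} {cl : ℕ → ℕ} {m M : ℕ → Prop} {f : ℕ → ZMod 2} {t : ℝ} {a b u v : ℕ}
    (hA : Adm A cl m M) (hab : 1 ≤ a + b) (h0 : 0 ≤ t) (h1 : t ≤ 1)
    (ht : @Prob (Fin a ⊕ Fin b) _ (ordS a b) A cl M f (ty a b u v) t)
    (hD : ∀ i, Dn (PG A cl (ty a b u v) i)) :
    (∃ (c C : ℝ) (X₀ : ℕ), 0 < c ∧ 0 < C ∧ ∀ X : ℕ, X₀ ≤ X →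
      c * (X * Real.log (Real.log X) ^ (a + b - 1) / Real.log X) ≤
        (cnt (FamN A cl (ty a b u v)) X : ℝ) ∧
      (cnt (FamN A cl (ty a b u v)) X : ℝ) ≤
        C * (X * Real.log (Real.log X) ^ (a + b - 1) / Real.log X)) ∧
    Tendsto (fun X : ℕ =>
      (cnt (fun D => FamN A cl (ty a b u v) D ∧ GdM m f D.primeFactors) X : ℝ) /
      (cnt (FamN A cl (ty a b u v)) X : ℝ)) atTop (𝓝 t) := by
  let _ : LinearOrder (Fin a ⊕ Fin b) := ordS a b
  have hne : Nonempty (Fin a ⊕ Fin b) := by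
    rw [← Fintype.card_pos_iff, card_S]
    omega
  obtain ⟨i₀⟩ := hne
  unfold cnt
  constructor
  · obtain ⟨c, C, X₀, hc, hC, hs⟩ := num_size hA i₀ hD
    refine ⟨c, C, X₀, hc, hC, fun X hX => ?_⟩
    have h2 := hs X hX
    rw [card_S] at h2
    rw [card_Icc]
    exact h2
  · refine (num_law hA i₀ h0 h1 ht hD).congr fun X => ?_
    rw [card_Icc, card_Icc]
    congr!

/-- primes in the intersection of two residue classes -/
theorem dn_class {q c m r : ℕ} (hm : 1 ≤ m) (hq : Nat.Coprime q m) (hq0 : 1 ≤ q)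
    (hc : Nat.Coprime c q) (hr : Nat.Coprime r m) (hrm : r < m) :
    Dn fun p => p.Prime ∧ p % q = c % q ∧ p % m = r := by
  obtain ⟨x, hx1, hx2⟩ := Nat.chineseRemainder hq c r
  have hxc : Nat.Coprime x (q * m) := by
    refine Nat.Coprime.mul_right ?_ ?_
    · have := Nat.ModEq.gcd_eq hx1
      unfold Nat.Coprime
      rw [this]
      exact hc
    · have := Nat.ModEq.gcd_eq hx2
      unfold Nat.Coprime
      rw [this]
      exact hr
  obtain ⟨δ, Y₀, hδ, h⟩ := Pool.Agent.V11291.FK.Cb.pai_low' (q * m) (Nat.mul_pos hq0 hm) x hxc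
  refine ⟨δ, Y₀, hδ, fun Y hY => (h Y hY).trans ?_⟩
  refine Nat.cast_le.2 (Finset.card_le_card fun p hp => ?_)
  simp only [mem_filter] at hp ⊢
  obtain ⟨h0, h2, h3⟩ := hp
  refine ⟨h0, h2, ?_, ?_⟩
  · have h1 : p % (q * m) % q = x % (q * m) % q := by rw [h3]
    rw [Nat.mod_mul_right_mod, Nat.mod_mul_right_mod] at h1
    exact h1.trans hx1
  · have h1 : p % (q * m) % m = x % (q * m) % m := by rw [h3]
    rw [Nat.mod_mul_left_mod, Nat.mod_mul_left_mod] at h1
    exact (h1.trans hx2).trans (Nat.mod_eq_of_lt hrm)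

end Run7.h268.FN
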