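import Pool.Agent.Run7.h268.FN.Box
import Pool.Agent.Y710.CQ.BIL

/-!
# A fixed number of primes: all the symbols of a tuple, for any predicate

The primes are any odd primes, their classes modulo `4` are given by the index.
-/

set_option autoImplicit false

open scoped Classical

namespace Run7.h268.FN

open Finset
open Pool.Agent.Y703.CX (sm la jj XX)
open Pool.Agent.Y703.CQ (nr sg prs HB S_EQ ext)
open Pool.Agent.Y703.CQ.K302 (le_XX prs_card root12)
open Pool.Agent.Y219.CQ (mem_prs ext_self ext_pos ext_neg)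
open Pool.Agent.R413.SQ.BOX (nr_self nr_symm HB_sub)
open Pool.Agent.V11291.FK (Tup Exc bx mem_Tup fib_eq fib_empty)
open Pool.Agent.Y710.CQ (xi bil sg_xi)

theorem sg_add (a b : ZMod 2) : sg (a + b) = sg a * sg b := by
  have h : ∀ x : ZMod 2, x = 0 ∨ x = 1 := by decide
  unfold sg
  rcases h a with rfl | rfl <;> rcases h b with rfl | rfl
  · simp
  · simp
  · simp
  · have e : (1 : ZMod 2) + 1 = 0 := by decide
    rw [e]
    simp

theorem norm_sg (a : ZMod 2) : ‖sg a‖ = 1 := by
  unfold sg
  split_ifs <;> simp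

/-- bilinear sums of quadratic symbols of arbitrary odd primes -/
theorem bilG {P Q : Finset ℕ} {A B z : ℕ} {c d : ℕ → ℂ} {t : ZMod 2}
    (hP : ∀ p ∈ P, p.Prime ∧ p ≠ 2 ∧ p ≤ A) (hQ : ∀ q ∈ Q, q.Prime ∧ q ≠ 2 ∧ q ≤ B)
    (hdis : Disjoint P Q) (ht : ∀ p ∈ P, ∀ q ∈ Q, nr p q = nr q p + t)
    (hz : 1 ≤ z) (hzA : z ≤ A) (hzB : z ≤ B) (hc : ∀ p, ‖c p‖ ≤ 1) (hd : ∀ q, ‖d q‖ ≤ 1) :
    ‖∑ p ∈ P, ∑ q ∈ Q, c p * d q * sg (nr p q)‖ ^ 12 * z ≤ (3 * 6 ^ 6) * ((A : ℝ) * B) ^ 12 := by
  have hne : ∀ p ∈ P, ∀ q ∈ Q, p ≠ q := fun p hp q hq he =>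
    (Finset.disjoint_left.1 hdis) hp (he ▸ hq)
  have hzr : (1 : ℝ) ≤ z := by exact_mod_cast hz
  rcases le_total B A with hBA | hAB
  · have e1 : ∑ p ∈ P, ∑ q ∈ Q, c p * d q * sg (nr p q) =
        sg t * ∑ q ∈ Q, ∑ p ∈ P, d q * c p * xi q p := by
      rw [sum_comm, mul_sum]
      refine sum_congr rfl fun q hq => ?_
      rw [mul_sum]
      refine sum_congr rfl fun p hp => ?_
      rw [ht p hp q hq, sg_add, sg_xi (hQ q hq).1 (hP p hp).1 (hne p hp q hq).symm]
      ring
    rw [e1, norm_mul, norm_sg, one_mul]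
    have h1 := bil (hz.trans hzB) hBA hQ hP d c hd hc
    have h2 : (z : ℝ) ≤ B := by exact_mod_cast hzB
    calc ‖∑ q ∈ Q, ∑ p ∈ P, d q * c p * xi q p‖ ^ 12 * z ≤
        (3 * 6 ^ 6 * ((B : ℝ) ^ 11 * (A : ℝ) ^ 12)) * B := by
          apply mul_le_mul h1 h2 (by positivity) (by positivity)
      _ = 3 * 6 ^ 6 * ((A : ℝ) * B) ^ 12 := by ring
  · have e1 : ∑ p ∈ P, ∑ q ∈ Q, c p * d q * sg (nr p q) =
        ∑ p ∈ P, ∑ q ∈ Q, c p * d q * xi p q := by
      refine sum_congr rfl fun p hp => sum_congr rfl fun q hq => ?_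
      rw [sg_xi (hP p hp).1 (hQ q hq).1 (hne p hp q hq)]
    rw [e1]
    have h1 := bil (hz.trans hzA) hAB hP hQ c d hc hd
    have h2 : (z : ℝ) ≤ A := by exact_mod_cast hzA
    calc ‖∑ p ∈ P, ∑ q ∈ Q, c p * d q * xi p q‖ ^ 12 * z ≤
        (3 * 6 ^ 6 * ((A : ℝ) ^ 11 * (B : ℝ) ^ 12)) * A := by
          apply mul_le_mul h1 h2 (by positivity) (by positivity)
      _ = 3 * 6 ^ 6 * ((A : ℝ) * B) ^ 12 := by ring

/-- the class of an odd prime modulo `4`, additively -/
def e4 (p : ℕ) : ZMod 2 := if p % 4 = 1 then 0 else 1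

/-- quadratic reciprocity -/
theorem nr_rec {p q : ℕ} (hp : p.Prime) (hp2 : p ≠ 2) (hq : q.Prime) (hq2 : q ≠ 2) (hne : p ≠ q) :
    nr p q = nr q p + e4 p * e4 q := by
  have : Fact p.Prime := ⟨hp⟩
  have : Fact q.Prime := ⟨hq⟩
  have hp' : p % 4 = 1 ∨ p % 4 = 3 := Nat.odd_mod_four_iff.1 (hp.eq_two_or_odd.resolve_left hp2)
  have hq' : q % 4 = 1 ∨ q % 4 = 3 := Nat.odd_mod_four_iff.1 (hq.eq_two_or_odd.resolve_left hq2)
  rcases hp' with h1 | h1
  · rw [nr_symm hp h1 hq hq2]
    unfold e4
    rw [if_pos h1, zero_mul, add_zero]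
  rcases hq' with h2 | h2
  · rw [nr_symm hq h2 hp hp2]
    unfold e4
    rw [if_pos h2, mul_zero, add_zero]
  · have h := ZMod.exists_sq_eq_prime_iff_of_mod_four_eq_three (p := p) (q := q) h1 h2 hne
    unfold nr e4
    rw [if_neg (by omega : ¬ p % 4 = 1), if_neg (by omega : ¬ q % 4 = 1)]
    by_cases h3 : IsSquare (q : ZMod p)
    · rw [if_pos h3, if_neg (h.1 h3)]
      decide
    · rw [if_neg h3, if_pos (by
        by_contra h4
        exact h3 (h.2 h4))]
      decide

section one

variable {ι : Type} [Fintype ι] [LinearOrder ι]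

/-- the matrix of symbols from the free ones -/
noncomputable def ex (e : ι → ZMod 2) (α : prs (univ : Finset ι) → ZMod 2) (k l : ι) : ZMod 2 :=
  ext α k l + if l < k then e k * e l else 0

theorem ex_self (e : ι → ZMod 2) (α : prs (univ : Finset ι) → ZMod 2) (k : ι) : ex e α k k = 0 := by
  unfold ex
  rw [ext_self, if_neg (lt_irrefl k), add_zero]

theorem ex_rec (e : ι → ZMod 2) (α : prs (univ : Finset ι) → ZMod 2) {k l : ι} (h : k ≠ l) :
    ex e α k l = ex e α l k + e k * e l := by
  unfold ex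
  have hs : ext α k l = ext α l k :=
    Pool.Agent.Y219.CQ.ext_symm univ α (mem_univ k) (mem_univ l)
  have h2 : ∀ a : ZMod 2, a + a = 0 := by decide
  rcases lt_or_gt_of_ne h with h1 | h1
  · rw [if_neg h1.not_gt, if_pos h1, hs, add_zero, add_assoc, mul_comm (e l), h2, add_zero]
  · rw [if_pos h1, if_neg h1.not_gt, hs, add_zero]

theorem nr_ex {p : ι → ℕ} (hp : Function.Injective p) (hpr : ∀ i, (p i).Prime ∧ p i ≠ 2)
    {e : ι → ZMod 2} (he : ∀ i, e4 (p i) = e i) (k l : ι) :
    ex e (fun x : prs (univ : Finset ι) => nr (p x.1.1) (p x.1.2)) k l = nr (p k) (p l) := by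
  unfold ex
  rcases lt_trichotomy k l with h | h | h
  · rw [if_neg h.not_gt, add_zero,
      ext_pos univ _ ((mem_prs univ k l).2 ⟨mem_univ k, h.ne', fun _ => h⟩)]
  · rw [h, if_neg (lt_irrefl l), add_zero, ext_self, nr_self]
  · rw [if_pos h, ext_neg univ _ ((mem_prs univ l k).2 ⟨mem_univ l, h.ne', fun _ => h⟩)
      (mem_univ k)]
    rw [nr_rec (hpr k).1 (hpr k).2 (hpr l).1 (hpr l).2 fun h1 => h.ne' (hp h1), he, he]

/-- the proportion of the systems of symbols with a property -/
noncomputable def frc (Q : (prs (univ : Finset ι) → ZMod 2) → Prop) : ℝ :=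
  ((univ.filter Q).card : ℝ) / 2 ^ (prs (univ : Finset ι)).card

theorem frc_nonneg (Q : (prs (univ : Finset ι) → ZMod 2) → Prop) : 0 ≤ frc Q := by
  unfold frc
  positivity

theorem frc_le_one (Q : (prs (univ : Finset ι) → ZMod 2) → Prop) : frc Q ≤ 1 := by
  unfold frc
  rw [div_le_one (by positivity)]
  have h := Finset.card_le_univ (univ.filter Q)
  rw [Fintype.card_fun, ZMod.card, Fintype.card_coe] at h
  exact_mod_cast h

/-- **The sum over the boxes.** -/
theorem sum_boxesG (hEQ : S_EQ) (e : ι → ZMod 2) :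
    ∃ C : ℝ, 1 ≤ C ∧ ∀ (P : ι → ℕ → Prop) (W : Finset ℕ → Prop) (Φ : (ι → ι → ZMod 2) → Prop)
      (X z H N : ℕ) (κ : ℝ),
      (∀ i p, P i p → p.Prime ∧ p ≠ 2 ∧ e4 p = e i) →
      (∀ p : ι → ℕ, Function.Injective p → (∀ i, P i (p i)) →
        (W (univ.image p) ↔ Φ fun k l => nr (p k) (p l))) →
      1 ≤ H → 1 ≤ z → 0 ≤ κ → C ≤ κ ^ 12 * z → (H : ℝ) * Real.log X < N →
      |(((Tup P X).filter fun p => ¬ Exc X z H p ∧ W (univ.image p)).card : ℝ) -
          frc (fun α => Φ (ex e α)) * (((Tup P X).filter fun p => ¬ Exc X z H p).card : ℝ)| ≤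
        (N : ℝ) ^ Fintype.card ι * (2 ^ (Fintype.card ι + Fintype.card ι ^ 2) * (κ * X)) := by
  refine ⟨3 * 6 ^ 6, by norm_num, ?_⟩
  intro P W Φ X z H N κ hP hW hH hz hκ hκz hN
  have hPp : ∀ i p, P i p → p.Prime := fun i p h => (hP i p h).1
  have hz0 : (0 : ℝ) < z := by exact_mod_cast hz
  -- the value in a box
  set B : Finset (ι → ℕ) := Fintype.piFinset fun _ : ι => range N with hBd
  have hmem : ∀ p ∈ Tup P X, (fun i => jj H (p i)) ∈ B := by
    intro p hp
    rw [mem_Tup hPp] at hp
    rw [hBd, Fintype.mem_piFinset]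
    intro i
    rw [mem_range]
    have hp0 := (hPp i _ (hp.1 i)).pos
    have hqX : p i ≤ X := by
      refine le_trans ?_ hp.2.2
      exact Nat.le_of_dvd (Finset.prod_pos fun j _ => (hPp j _ (hp.1 j)).pos)
        (Finset.dvd_prod_of_mem _ (mem_univ i))
    have h3 : ((jj H (p i) : ℕ) : ℝ) < N := by
      refine lt_of_le_of_lt (Nat.floor_le (mul_nonneg (Nat.cast_nonneg _)
        (Real.log_nonneg (by exact_mod_cast hp0)))) ?_
      refine lt_of_le_of_lt ?_ hN
      refine mul_le_mul_of_nonneg_left ?_ (Nat.cast_nonneg _)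
      exact Real.log_le_log (by exact_mod_cast hp0) (by exact_mod_cast hqX)
    exact_mod_cast h3
  have hfib : ∀ T : (ι → ℕ) → Prop,
      (((Tup P X).filter fun p => ¬ Exc X z H p ∧ T p).card : ℝ) =
      ∑ b ∈ B, ((((Tup P X).filter fun p => ¬ Exc X z H p ∧
        (fun i => jj H (p i)) = b).filter T).card : ℝ) := by
    intro T
    rw [Finset.card_eq_sum_card_fiberwise (f := fun (p : ι → ℕ) (i : ι) => jj H (p i))
      (t := B) (fun p hp => by
        rw [mem_coe, mem_filter] at hp
        exact mem_coe.2 (hmem p hp.1))]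
    push_cast
    refine Finset.sum_congr rfl fun b _ => ?_
    congr 2
    ext p
    simp only [mem_filter]
    tauto
  have hf1 := hfib fun p => W (univ.image p)
  have hf2 := hfib fun _ => True
  simp only [and_true, Finset.filter_true] at hf2
  rw [hf1, hf2, Finset.mul_sum, ← Finset.sum_sub_distrib]
  refine (Finset.abs_sum_le_sum_abs _ _).trans ?_
  have hbox : ∀ b ∈ B, |((((Tup P X).filter fun p => ¬ Exc X z H p ∧
        (fun i => jj H (p i)) = b).filter fun p => W (univ.image p)).card : ℝ) -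
      frc (fun α => Φ (ex e α)) * (((Tup P X).filter fun p => ¬ Exc X z H p ∧
        (fun i => jj H (p i)) = b).card : ℝ)| ≤
      2 ^ (Fintype.card ι + Fintype.card ι ^ 2) * (κ * X) := by
    intro b _
    by_cases hb : Function.Injective b ∧ ∏ i, XX H (b i) ≤ X
    · rw [fib_eq hPp hH hb.1 hb.2]
      have hmb : ∀ i, ∀ p ∈ bx P z H b i, P i p ∧ jj H p = b i ∧ z < p ∧ p ≤ XX H (b i) := by
        intro i p hp
        unfold bx at hp
        rw [mem_filter, mem_Icc] at hp
        exact ⟨hp.2.1, hp.2.2.1, hp.2.2.2, hp.1.2⟩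
      have hdis : ∀ i l, i ≠ l → Disjoint (bx P z H b i) (bx P z H b l) := by
        intro i l hil
        rw [Finset.disjoint_left]
        intro p hp hp'
        exact hil (hb.1 ((hmb i p hp).2.1.symm.trans (hmb l p hp').2.1))
      have h1 := hEQ ι univ (bx P z H b) (fun i => XX H (b i)) κ hκ
        (fun i => by
          refine (Finset.card_filter_le _ _).trans ?_
          rw [Nat.card_Icc]
          omega)
        (by
          intro i l hil _ c d hc hd
          have hk0 : (0 : ℝ) ≤ κ * ((XX H (b i) : ℝ) * (XX H (b l) : ℝ)) := by positivity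
          rcases (bx P z H b i).eq_empty_or_nonempty with he | ⟨p₀, hp₀⟩
          · rw [he, Finset.sum_empty, norm_zero]
            exact hk0
          rcases (bx P z H b l).eq_empty_or_nonempty with he | ⟨q₀, hq₀⟩
          · rw [he]
            simp only [Finset.sum_empty, Finset.sum_const_zero, norm_zero]
            exact hk0
          have hzi : z ≤ XX H (b i) := by
            have := hmb i p₀ hp₀
            omega
          have hzl : z ≤ XX H (b l) := by
            have := hmb l q₀ hq₀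
            omega
          have h3 := bilG (P := bx P z H b i) (Q := bx P z H b l) (A := XX H (b i))
            (B := XX H (b l)) (z := z) (c := c) (d := d) (t := e i * e l)
            (fun p hp => by
              have h4 := hmb i p hp
              have h5 := hP i p h4.1
              exact ⟨h5.1, h5.2.1, h4.2.2.2⟩)
            (fun p hp => by
              have h4 := hmb l p hp
              have h5 := hP l p h4.1
              exact ⟨h5.1, h5.2.1, h4.2.2.2⟩)
            (hdis i l hil) (fun p hp q hq => by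
              have h4 := hP i p (hmb i p hp).1
              have h5 := hP l q (hmb l q hq).1
              rw [nr_rec h4.1 h4.2.1 h5.1 h5.2.1 (fun h6 => by
                subst h6
                exact (Finset.disjoint_left.1 (hdis i l hil)) hp hq), h4.2.2, h5.2.2])
            hz hzi hzl hc hd
          exact root12 (norm_nonneg _) hκ (Nat.cast_nonneg _) (Nat.cast_nonneg _) hz0 h3 hκz)
        (fun α => Φ (ex e α))
      have h2 : ∏ j, ((XX H (b j) : ℕ) : ℝ) ≤ X := by exact_mod_cast hb.2
      have h3 : (prs (univ : Finset ι)).card ≤ Fintype.card ι ^ 2 := by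
        rw [pow_two]
        exact prs_card univ
      have h4 : κ * ∏ j, ((XX H (b j) : ℕ) : ℝ) ≤ κ * X := mul_le_mul_of_nonneg_left h2 hκ
      have h5 : (0 : ℝ) ≤ κ * ∏ j, ((XX H (b j) : ℕ) : ℝ) :=
        mul_nonneg hκ (Finset.prod_nonneg fun j _ => by positivity)
      have h6 : (Fintype.piFinset (bx P z H b)).filter (fun p => W (univ.image p)) =
          (Fintype.piFinset (bx P z H b)).filter fun p => Φ (ex e
            (fun x : prs (univ : Finset ι) => nr (p x.1.1) (p x.1.2))) := by
        refine Finset.filter_congr fun p hp => ?_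
        rw [Fintype.mem_piFinset] at hp
        have hinj : Function.Injective p := by
          intro i j hij
          by_contra hne
          have h1 := Finset.disjoint_left.1 (hdis i j hne) (hp i)
          rw [hij] at h1
          exact h1 (hp j)
        rw [hW p hinj fun i => (hmb i _ (hp i)).1]
        have h7 : (fun k l => nr (p k) (p l)) = ex e
            (fun x : prs (univ : Finset ι) => nr (p x.1.1) (p x.1.2)) := by
          funext k l
          exact (nr_ex hinj (fun i => ⟨(hP i _ (hmb i _ (hp i)).1).1,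
            (hP i _ (hmb i _ (hp i)).1).2.1⟩) (fun i => (hP i _ (hmb i _ (hp i)).1).2.2) k l).symm
        rw [h7]
      have h8 : (((Fintype.piFinset (bx P z H b)).card : ℕ) : ℝ) =
          ∏ j, ((bx P z H b j).card : ℝ) := by
        rw [Fintype.card_piFinset]
        push_cast
        rfl
      rw [h6, h8]
      refine h1.trans (mul_le_mul ?_ h4 h5 (by positivity))
      exact pow_le_pow_right₀ (by norm_num) (by omega)
    · rw [fib_empty hb]
      simp only [Finset.filter_empty, Finset.card_empty, Nat.cast_zero, mul_zero, sub_zero, abs_zero]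
      positivity
  refine (Finset.sum_le_sum hbox).trans ?_
  rw [Finset.sum_const, nsmul_eq_mul, hBd, Fintype.card_piFinset]
  simp only [Finset.card_range, Finset.prod_const, Finset.card_univ]
  push_cast
  exact le_rfl

end one

end Run7.h268.FN
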