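import Pool.Agent.Run7.h268.FN.Fam
import Pool.Agent.Run7.h268.FN.Gbx

/-!
# A fixed number of primes: the law of any property which depends only on the symbols
-/

set_option autoImplicit false

open scoped Classical

namespace Run7.h268.FN

open Finset Filter Topology
open Pool.Agent.Y703.CX (sm la jj XX)
open Pool.Agent.Y703.CQ (nr prs ext S_SYM S_EQ)
open Pool.Agent.V11291.FK (Tup Exc BoxH ExcH LowH TW FW PG QG set_lawG FW_low FW_up mem_TW mem_FW
  Dn low exc_abs mem_Tup qg_of exists_tupleG)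

section law

variable {ι : Type} [Fintype ι] [LinearOrder ι] {A : ℕ → Prop} {cl : ℕ → ℕ} {τ : ι → ℕ}
  {e : ι → ZMod 2} {W : Finset ℕ → Prop} {Φ : (ι → ι → ZMod 2) → Prop}

/-- odd primes, the kind gives the class modulo `4` -/
structure AdmG (A : ℕ → Prop) (cl : ℕ → ℕ) (τ : ι → ℕ) (e : ι → ZMod 2) : Prop where
  prime : ∀ p, A p → p.Prime
  odd : ∀ p, A p → p ≠ 2
  four : ∀ i p, A p → cl p = τ i → e4 p = e i

/-- the property `W` of the sets of primes is the property `Φ` of the symbols -/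
def Sym (A : ℕ → Prop) (cl : ℕ → ℕ) (τ : ι → ℕ) (W : Finset ℕ → Prop)
    (Φ : (ι → ι → ZMod 2) → Prop) : Prop :=
  ∀ p : ι → ℕ, Function.Injective p → (∀ i, PG A cl τ i (p i)) →
    (W (univ.image p) ↔ Φ fun k l => nr (p k) (p l))

theorem boxH_G (hA : AdmG A cl τ e) (hW : Sym A cl τ W Φ) :
    BoxH (TW A cl τ fun _ => True) (fun p => W (univ.image p)) (frc fun α => Φ (ex e α)) := by
  obtain ⟨C, hC, h⟩ := sum_boxesG Pool.Agent.Y356.CQ.t_EQ e
  refine ⟨2 ^ (Fintype.card ι + Fintype.card ι ^ 2), C, by positivity, hC, ?_⟩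
  intro X z H N κ hH hz hκ hκz hN
  rw [TW_true]
  exact h (PG A cl τ) W Φ X z H N κ (fun i p hp => ⟨hA.prime p hp.1, hA.odd p hp.1,
    hA.four i p hp.1 hp.2⟩) hW hH hz hκ hκz hN

theorem excH_G (hA : AdmG A cl τ e) {j : ℕ} (hj : Fintype.card ι = j + 1) :
    ExcH (TW A cl τ fun _ => True) j := by
  refine exc_abs hj PS (fun X p hp => ?_) (fun X z H _ hH => cut_count hH)
    (fun X z H _ hH => coll_count hH)
  rw [mem_TW hA.prime] at hp
  obtain ⟨⟨h1, h2, h3⟩, -⟩ := hp
  refine ⟨fun i => hA.prime _ (h1 i).1, h2, h3, mem_PS (fun q hq => ?_) ?_⟩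
  · rw [mem_image] at hq
    obtain ⟨i, -, rfl⟩ := hq
    exact hA.prime _ (h1 i).1
  · rw [Finset.prod_image fun a _ b _ h => h2 h]
    exact h3

theorem lowH_G (hA : AdmG A cl τ e) (i₀ : ι) (hD : ∀ i, Dn (PG A cl τ i)) :
    LowH (TW A cl τ fun _ => True) := by
  obtain ⟨c, X₀, hc, h⟩ := low (P := PG A cl τ) (fun i p h => hA.prime p h.1) hD i₀
  exact ⟨c, X₀, hc, fun X hX => by rw [TW_true]; exact h X hX⟩

omit [LinearOrder ι] in
theorem prs_empty [LinearOrder ι] (hc : Fintype.card ι = 1) : prs (univ : Finset ι) = ∅ := by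
  have hsub : Subsingleton ι := Fintype.card_le_one_iff_subsingleton.1 hc.le
  refine Finset.eq_empty_of_forall_notMem fun e he => ?_
  exact ((Pool.Agent.Y219.CQ.mem_prs univ e.1 e.2).1 he).2.1 (Subsingleton.elim _ _)

/-- one prime -/
theorem one_G (hA : AdmG A cl τ e) (hW : Sym A cl τ W Φ) (hc : Fintype.card ι = 1) {p : ι → ℕ}
    (hp : ∀ i, PG A cl τ i (p i)) :
    (W (univ.image p) ∧ frc (fun α => Φ (ex e α)) = 1) ∨
      (¬ W (univ.image p) ∧ frc (fun α => Φ (ex e α)) = 0) := by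
  have hsub : Subsingleton ι := Fintype.card_le_one_iff_subsingleton.1 hc.le
  have hinj : Function.Injective p := fun x y _ => Subsingleton.elim x y
  have h2 : prs (univ : Finset ι) = ∅ := prs_empty hc
  have hE : IsEmpty (prs (univ : Finset ι)) := by
    rw [h2]
    infer_instance
  have h4 : ∀ α : prs (univ : Finset ι) → ZMod 2,
      ex e α = fun k l => nr (p k) (p l) := by
    intro α
    have h5 : α = fun x : prs (univ : Finset ι) => nr (p x.1.1) (p x.1.2) :=
      funext fun x => (hE.false x).elim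
    rw [h5]
    funext k l
    exact nr_ex hinj (fun i => ⟨hA.prime _ (hp i).1, hA.odd _ (hp i).1⟩)
      (fun i => hA.four i _ (hp i).1 (hp i).2) k l
  have h3 := hW p hinj hp
  unfold frc
  have h5 : (2 : ℝ) ^ (prs (univ : Finset ι)).card = 1 := by
    rw [h2]
    simp
  rw [h5, div_one]
  by_cases hg : W (univ.image p)
  · left
    refine ⟨hg, ?_⟩
    rw [Finset.filter_true_of_mem, Finset.card_univ, Fintype.card_fun, Fintype.card_coe, h2,
      Finset.card_empty, pow_zero, Nat.cast_one]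
    intro α _
    rw [h4 α]
    exact h3.1 hg
  · right
    refine ⟨hg, ?_⟩
    rw [Finset.filter_false_of_mem, Finset.card_empty, Nat.cast_zero]
    intro α _ hα
    rw [h4 α] at hα
    exact hg (h3.2 hα)

/-- **The law for the sets.** -/
theorem set_law_sym (hA : AdmG A cl τ e) (i₀ : ι) (hW : Sym A cl τ W Φ)
    (hD : ∀ i, Dn (PG A cl τ i)) :
    Tendsto (fun X : ℕ => (((FW A cl τ (fun _ => True) X).filter W).card : ℝ) /
      ((FW A cl τ (fun _ => True) X).card : ℝ)) atTop (𝓝 (frc fun α => Φ (ex e α))) := by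
  have hpos : 1 ≤ Fintype.card ι := Fintype.card_pos_iff.2 ⟨i₀⟩
  rcases Nat.lt_or_ge (Fintype.card ι) 2 with hc | hc
  · have hc1 : Fintype.card ι = 1 := by omega
    obtain ⟨c, X₀, hcp, hlow⟩ := FW_low (W := fun _ => True) hA.prime i₀ (lowH_G hA i₀ hD)
    refine Tendsto.congr' (f₁ := fun _ => frc fun α => Φ (ex e α)) ?_ tendsto_const_nhds
    refine eventually_atTop.2 ⟨max X₀ 3, fun X hX => ?_⟩
    have hX3 : 3 ≤ X := (le_max_right _ _).trans hX
    have hX1 : (1 : ℝ) < X := by exact_mod_cast (by omega : 1 < X)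
    have hlog : 0 < Real.log X := Real.log_pos hX1
    have hll := hlow X ((le_max_left _ _).trans hX)
    rw [hc1, Nat.sub_self, pow_zero, mul_one] at hll
    have hcard : (0 : ℝ) < ((FW A cl τ (fun _ => True) X).card : ℝ) := by
      refine lt_of_lt_of_le ?_ hll
      positivity
    show frc (fun α => Φ (ex e α)) = (((FW A cl τ (fun _ => True) X).filter W).card : ℝ) /
      ((FW A cl τ (fun _ => True) X).card : ℝ)
    have hall : ∀ S ∈ FW A cl τ (fun _ => True) X, (W S ∧ frc (fun α => Φ (ex e α)) = 1) ∨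
        (¬ W S ∧ frc (fun α => Φ (ex e α)) = 0) := by
      intro S hS
      rw [mem_FW hA.prime] at hS
      obtain ⟨p, hp, -, rfl⟩ := exists_tupleG hS.1 hS.2.1
      exact one_G hA hW hc1 hp
    rcases (FW A cl τ (fun _ => True) X).eq_empty_or_nonempty with he | ⟨S₀, hS₀⟩
    · rw [he] at hcard
      simp at hcard
    · rcases hall S₀ hS₀ with h2 | h2
      · rw [Finset.filter_true_of_mem, h2.2, div_self hcard.ne']
        intro S hS
        rcases hall S hS with h3 | h3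
        · exact h3.1
        · exact absurd (h3.2.symm.trans h2.2) zero_ne_one
      · rw [Finset.filter_false_of_mem, h2.2, Finset.card_empty, Nat.cast_zero, zero_div]
        intro S hS
        rcases hall S hS with h3 | h3
        · exact absurd (h2.2.symm.trans h3.2) zero_ne_one
        · exact h3.1
  · obtain ⟨j, hj⟩ : ∃ j, Fintype.card ι = j + 2 := ⟨Fintype.card ι - 2, by omega⟩
    exact set_lawG hA.prime (fun _ => True) hj (frc_nonneg _) (frc_le_one _) (boxH_G hA hW)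
      (excH_G hA hj) (lowH_G hA i₀ hD)

/-- **The law for the numbers.** -/
theorem num_law_sym (hA : AdmG A cl τ e) (i₀ : ι) (hW : Sym A cl τ W Φ)
    (hD : ∀ i, Dn (PG A cl τ i)) :
    Tendsto (fun X : ℕ =>
      (((Icc 1 X).filter fun D => FamN A cl τ D ∧ W D.primeFactors).card : ℝ) /
      (((Icc 1 X).filter fun D => FamN A cl τ D).card : ℝ)) atTop
      (𝓝 (frc fun α => Φ (ex e α))) := by
  refine (set_law_sym hA i₀ hW hD).congr fun X => ?_
  rw [card_num hA.prime, card_num' hA.prime]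

/-- the size of the family -/
theorem num_size_sym (hA : AdmG A cl τ e) (i₀ : ι) (hD : ∀ i, Dn (PG A cl τ i)) :
    ∃ (c C : ℝ) (X₀ : ℕ), 0 < c ∧ 0 < C ∧ ∀ X : ℕ, X₀ ≤ X →
      c * (X * Real.log (Real.log X) ^ (Fintype.card ι - 1) / Real.log X) ≤
        (((Icc 1 X).filter fun D => FamN A cl τ D).card : ℝ) ∧
      (((Icc 1 X).filter fun D => FamN A cl τ D).card : ℝ) ≤
        C * (X * Real.log (Real.log X) ^ (Fintype.card ι - 1) / Real.log X) := by
  have hpos : 1 ≤ Fintype.card ι := Fintype.card_pos_iff.2 ⟨i₀⟩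
  obtain ⟨c, X₀, hc, hlow⟩ := FW_low (W := fun _ => True) hA.prime i₀ (lowH_G hA i₀ hD)
  obtain ⟨j, hj⟩ : ∃ j, Fintype.card ι = j + 1 := ⟨Fintype.card ι - 1, by omega⟩
  obtain ⟨C, X₁, hC, hup⟩ := FW_up (cl := cl) (τ := τ) hA.prime hj fun _ => True
  refine ⟨c, C, max X₀ X₁, hc, hC, fun X hX => ?_⟩
  rw [card_num' hA.prime]
  refine ⟨hlow X ((le_max_left _ _).trans hX), ?_⟩
  have h := hup X ((le_max_right _ _).trans hX)
  have e : Fintype.card ι - 1 = j := by omega
  rw [e]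
  exact h

end law

/-! ### products of primes in given residue classes -/

/-- `D` is the product of `n` different primes `p i` in `S` with `p i = c i` modulo `q` -/
def Prd (S : Set ℕ) (q : ℕ) {n : ℕ} (c : Fin n → ℕ) (D : ℕ) : Prop :=
  ∃ p : Fin n → ℕ, Function.Injective p ∧ (∀ i, (p i).Prime ∧ p i ∈ S ∧ p i % q = c i) ∧
    D = ∏ i, p i

/-- the primes in `S` -/
def PrS (S : Set ℕ) (p : ℕ) : Prop := p.Prime ∧ p ≠ 2 ∧ p ∈ S

theorem prd_iff {S : Set ℕ} {q : ℕ} {n : ℕ} {c : Fin n → ℕ} (hq : 4 ∣ q)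
    (hc : ∀ i, (c i) % 2 = 1) {D : ℕ} :
    Prd S q c D ↔ FamN (PrS S) (fun p => p % q) c D := by
  have h2q : ∀ x : ℕ, x % q % 2 = x % 2 := fun x =>
    Nat.mod_mod_of_dvd x ((by norm_num : 2 ∣ 4).trans hq)
  constructor
  · rintro ⟨p, hp, h, rfl⟩
    have hprod : ∏ i, p i = ∏ x ∈ univ.image p, x := by
      rw [Finset.prod_image fun a _ b _ h => hp h]
    have hpf : (∏ i, p i).primeFactors = univ.image p := by
      rw [hprod]
      refine Nat.primeFactors_prod fun x hx => ?_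
      rw [mem_image] at hx
      obtain ⟨i, -, rfl⟩ := hx
      exact (h i).1
    refine ⟨?_, ?_, ?_⟩
    · rw [hprod]
      refine Finset.squarefree_prod_of_pairwise_isCoprime (fun x hx y hy hxy => ?_)
        fun x hx => ?_
      · rw [mem_coe, mem_image] at hx hy
        obtain ⟨i, -, rfl⟩ := hx
        obtain ⟨j, -, rfl⟩ := hy
        exact Nat.coprime_iff_isRelPrime.1 ((Nat.coprime_primes (h i).1 (h j).1).2 hxy)
      · rw [mem_image] at hx
        obtain ⟨i, -, rfl⟩ := hx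
        exact (h i).1.squarefree
    · intro x hx
      rw [hpf, mem_image] at hx
      obtain ⟨i, -, rfl⟩ := hx
      refine ⟨(h i).1, fun h2 => ?_, (h i).2.1⟩
      have h3 := h2q (p i)
      rw [(h i).2.2, hc i, h2] at h3
      norm_num at h3
    · rw [hpf]
      exact qg_of (B := fun _ => True) (cl := fun x => x % q) (fun i => ⟨trivial, (h i).2.2⟩) hp
  · rintro ⟨h1, h2, h3⟩
    obtain ⟨p, hp, hinj, himg⟩ := exists_tupleG h2 h3
    refine ⟨p, hinj, fun i => ⟨(hp i).1.1, (hp i).1.2.2, (hp i).2⟩, ?_⟩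
    rw [← Nat.prod_primeFactors_of_squarefree h1, ← himg,
      Finset.prod_image fun a _ b _ h => hinj h]

/-- **The law of the symbols of the products of primes in given residue classes.** -/
theorem law_prd {S : Set ℕ} {q : ℕ} {n : ℕ} {c : Fin n → ℕ} {W : Finset ℕ → Prop}
    {Φ : (Fin n → Fin n → ZMod 2) → Prop} (hq : 4 ∣ q) (hc : ∀ i, (c i) % 2 = 1) (hn : 1 ≤ n)
    (hD : ∀ i, Dn fun p => p.Prime ∧ p ∈ S ∧ p % q = c i)
    (hW : ∀ p : Fin n → ℕ, Function.Injective p →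
      (∀ i, (p i).Prime ∧ p i ∈ S ∧ p i % q = c i) →
      (W (univ.image p) ↔ Φ fun k l => nr (p k) (p l))) :
    (∃ (a C : ℝ) (X₀ : ℕ), 0 < a ∧ 0 < C ∧ ∀ X : ℕ, X₀ ≤ X →
      a * (X * Real.log (Real.log X) ^ (n - 1) / Real.log X) ≤ (cnt (Prd S q c) X : ℝ) ∧
      (cnt (Prd S q c) X : ℝ) ≤ C * (X * Real.log (Real.log X) ^ (n - 1) / Real.log X)) ∧
    Tendsto (fun X : ℕ => (cnt (fun D => Prd S q c D ∧ W D.primeFactors) X : ℝ) /
      (cnt (Prd S q c) X : ℝ)) atTop
        (𝓝 (frc fun α => Φ (ex (fun i => e4 (c i)) α))) := by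
  have h4q : ∀ x : ℕ, x % q % 4 = x % 4 := fun x => Nat.mod_mod_of_dvd x hq
  have e : Prd S q c = FamN (PrS S) (fun p => p % q) c := funext fun D => propext (prd_iff hq hc)
  have hA : AdmG (PrS S) (fun p => p % q) c fun i => e4 (c i) :=
    ⟨fun p h => h.1, fun p h => h.2.1, fun i p _ h => by
      unfold e4
      rw [← h, h4q]⟩
  have hD' : ∀ i, Dn (PG (PrS S) (fun p => p % q) c i) := by
    intro i
    obtain ⟨δ, Y₀, hδ, h⟩ := hD i
    refine ⟨δ, Y₀, hδ, fun Y hY => (h Y hY).trans ?_⟩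
    refine Nat.cast_le.2 (Finset.card_le_card fun p hp => ?_)
    simp only [mem_filter] at hp ⊢
    refine ⟨hp.1, ?_⟩
    replace hp := hp.2
    refine ⟨⟨hp.1, ?_, hp.2.1⟩, hp.2.2⟩
    rintro rfl
    have h3 := Nat.mod_mod_of_dvd 2 ((by norm_num : 2 ∣ 4).trans hq)
    rw [hp.2.2, hc i] at h3
    norm_num at h3
  have hS : Sym (PrS S) (fun p => p % q) c W Φ := fun p hp h =>
    hW p hp fun i => ⟨(h i).1.1, (h i).1.2.2, (h i).2⟩
  rw [e]
  unfold cnt
  constructor
  · obtain ⟨a, C, X₀, ha, hC, hs⟩ := num_size_sym hA ⟨0, hn⟩ hD'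
    refine ⟨a, C, X₀, ha, hC, fun X hX => ?_⟩
    have h2 := hs X hX
    rw [Fintype.card_fin] at h2
    rw [card_Icc]
    exact h2
  · refine (num_law_sym hA ⟨0, hn⟩ hS hD').congr fun X => ?_
    rw [card_Icc, card_Icc]
    congr!

end Run7.h268.FN
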