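import Pool.Agent.R413.SQ.BIL
import Pool.Agent.Y356.CQ.EQ
import Pool.Agent.Y839.CQ.SYM
import Pool.Agent.V11291.FK.Gen
import Pool.Agent.V11291.FK.Low2
import Pool.Agent.Run7.h268.FN.Box

/-!
# A fixed number of primes: the law for the sets and for the numbers, for arbitrary markings
-/

set_option autoImplicit false

open scoped Classical

namespace Run7.h268.FN

open Finset Filter Topology
open Pool.Agent.Y703.CX (sm la jj XX)
open Pool.Agent.Y703.CQ (nr prs ext S_SYM S_EQ)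
open Pool.Agent.Y219.CQ (sp)
open Pool.Agent.V11291.FK (Tup Exc BoxH ExcH LowH TW FW PG QG set_lawG FW_low FW_up mem_TW mem_FW
  Dn low exc_abs mem_Tup qg_of exists_tupleG)

/-- the primes of the class: odd, the marked ones `1` modulo `4`, and the marking is given by the
kind -/
structure Adm (A : ℕ → Prop) (cl : ℕ → ℕ) (m : ℕ → Prop) (M : ℕ → Prop) : Prop where
  prime : ∀ p, A p → p.Prime
  odd : ∀ p, A p → p ≠ 2
  four : ∀ p, A p → m p → p % 4 = 1
  mark : ∀ p, A p → (m p ↔ M (cl p))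

variable {A : ℕ → Prop} {cl : ℕ → ℕ} {m M : ℕ → Prop} {f : ℕ → ZMod 2} {a : ℝ}

section law

variable {ι : Type} [Fintype ι] [LinearOrder ι] {τ : ι → ℕ}

/-- the marked indices -/
noncomputable def JM (M : ℕ → Prop) (τ : ι → ℕ) : Finset ι := univ.filter fun i => M (τ i)

/-- the probability is `a` for all tuples of the kind -/
def Prob (A : ℕ → Prop) (cl : ℕ → ℕ) (M : ℕ → Prop) (f : ℕ → ZMod 2) (τ : ι → ℕ) (a : ℝ) : Prop :=
  ∀ p : ι → ℕ, (∀ i, PG A cl τ i (p i)) → PrT (JM M τ) (fun i => f (p i)) = a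

theorem TW_true (X : ℕ) : TW A cl τ (fun _ => True) X = Tup (PG A cl τ) X := by
  unfold TW
  rw [Finset.filter_true]

omit [LinearOrder ι] in
theorem mark_iff (hA : Adm A cl m M) {i : ι} {q : ℕ} (h : PG A cl τ i q) :
    i ∈ JM M τ ↔ m q := by
  unfold JM
  rw [mem_filter, hA.mark q h.1, h.2]
  exact ⟨fun h => h.2, fun h => ⟨mem_univ _, h⟩⟩

theorem boxH_M (hA : Adm A cl m M) (ha : Prob A cl M f τ a) :
    BoxH (TW A cl τ fun _ => True) (fun p => GdM m f (univ.image p)) a := by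
  obtain ⟨C, hC, h⟩ := sum_boxesM Pool.Agent.Y356.CQ.t_EQ Pool.Agent.R413.SQ.BIL.t_BIL (JM M τ)
  refine ⟨2 ^ (Fintype.card ι + Fintype.card ι ^ 2), C, by positivity, hC, ?_⟩
  intro X z H N κ hH hz hκ hκz hN
  rw [TW_true]
  exact h m (PG A cl τ) f X z H N κ a (fun i p hp => ⟨hA.prime p hp.1, hA.odd p hp.1,
    hA.four p hp.1, mark_iff hA hp⟩) ha hH hz hκ hκz hN

theorem excH_M (hA : Adm A cl m M) {j : ℕ} (hj : Fintype.card ι = j + 1) :
    ExcH (TW A cl τ fun _ => True) j := by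
  refine exc_abs hj PS (fun X p hp => ?_) (fun X z H _ hH => cut_count hH)
    (fun X z H _ hH => coll_count hH)
  rw [mem_TW hA.prime] at hp
  obtain ⟨⟨h1, h2, h3⟩, -⟩ := hp
  refine ⟨fun i => hA.prime _ (h1 i).1, h2, h3, mem_PS (fun q hq => ?_) ?_⟩
  · rw [mem_image] at hq
    obtain ⟨i, -, rfl⟩ := hq
    exact hA.prime _ (h1 i).1
  · rw [Finset.prod_image fun a _ b _ h => h2 h]
    exact h3

theorem lowH_M (hA : Adm A cl m M) (i₀ : ι) (hD : ∀ i, Dn (PG A cl τ i)) :
    LowH (TW A cl τ fun _ => True) := by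
  obtain ⟨c, X₀, hc, h⟩ := low (P := PG A cl τ) (fun i p h => hA.prime p h.1) hD i₀
  exact ⟨c, X₀, hc, fun X hX => by rw [TW_true]; exact h X hX⟩

/-- one prime: the probability decides -/
theorem gd_one (hA : Adm A cl m M) (ha : Prob A cl M f τ a) (hc : Fintype.card ι = 1) {p : ι → ℕ}
    (hp : ∀ i, PG A cl τ i (p i)) :
    (GdM m f (univ.image p) ∧ a = 1) ∨ (¬ GdM m f (univ.image p) ∧ a = 0) := by
  have hsub : Subsingleton ι := Fintype.card_le_one_iff_subsingleton.1 hc.le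
  have hinj : Function.Injective p := fun x y _ => Subsingleton.elim x y
  have h1 := ha p hp
  have h2 : prs (JM M τ) = ∅ := by
    refine Finset.eq_empty_of_forall_notMem fun e he => ?_
    exact ((Pool.Agent.Y219.CQ.mem_prs (JM M τ) e.1 e.2).1 he).2.1 (Subsingleton.elim _ _)
  have hE : IsEmpty (prs (JM M τ)) := by
    rw [h2]
    infer_instance
  have h3 := gd_iff (J1 := JM M τ) hinj (fun i => ⟨hA.prime _ (hp i).1, hA.odd _ (hp i).1,
    hA.four _ (hp i).1⟩) (fun i => mark_iff hA (hp i)) f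
  have h4 : ∀ α : prs (JM M τ) → ZMod 2, α = fun e : prs (JM M τ) => nr (p e.1.1) (p e.1.2) :=
    fun α => funext fun e => (hE.false e).elim
  unfold PrT at h1
  have h5 : (2 : ℝ) ^ (prs (JM M τ)).card = 1 := by
    rw [h2]
    simp
  rw [h5, div_one] at h1
  by_cases hg : GdM m f (univ.image p)
  · left
    refine ⟨hg, ?_⟩
    rw [Finset.filter_true_of_mem, Finset.card_univ, Fintype.card_fun, Fintype.card_coe, h2,
      Finset.card_empty, pow_zero, Nat.cast_one] at h1
    · exact h1.symm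
    · intro α _
      rw [h4 α]
      exact h3.1 hg
  · right
    refine ⟨hg, ?_⟩
    rw [Finset.filter_false_of_mem, Finset.card_empty, Nat.cast_zero] at h1
    · exact h1.symm
    · intro α _ hα
      rw [h4 α] at hα
      exact hg (h3.2 hα)

/-- **The law for the sets.** -/
theorem set_lawM (hA : Adm A cl m M) (i₀ : ι) (h0 : 0 ≤ a) (h1 : a ≤ 1)
    (ha : Prob A cl M f τ a) (hD : ∀ i, Dn (PG A cl τ i)) :
    Tendsto (fun X : ℕ => (((FW A cl τ (fun _ => True) X).filter (GdM m f)).card : ℝ) /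
      ((FW A cl τ (fun _ => True) X).card : ℝ)) atTop (𝓝 a) := by
  have hpos : 1 ≤ Fintype.card ι := Fintype.card_pos_iff.2 ⟨i₀⟩
  rcases Nat.lt_or_ge (Fintype.card ι) 2 with hc | hc
  · have hc1 : Fintype.card ι = 1 := by omega
    obtain ⟨c, X₀, hcp, hlow⟩ := FW_low (W := fun _ => True) hA.prime i₀ (lowH_M hA i₀ hD)
    refine Tendsto.congr' (f₁ := fun _ => a) ?_ tendsto_const_nhds
    refine eventually_atTop.2 ⟨max X₀ 3, fun X hX => ?_⟩
    have hX3 : 3 ≤ X := (le_max_right _ _).trans hX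
    have hX1 : (1 : ℝ) < X := by exact_mod_cast (by omega : 1 < X)
    have hlog : 0 < Real.log X := Real.log_pos hX1
    have hll := hlow X ((le_max_left _ _).trans hX)
    rw [hc1, Nat.sub_self, pow_zero, mul_one] at hll
    have hcard : (0 : ℝ) < ((FW A cl τ (fun _ => True) X).card : ℝ) := by
      refine lt_of_lt_of_le ?_ hll
      positivity
    show a = (((FW A cl τ (fun _ => True) X).filter (GdM m f)).card : ℝ) /
      ((FW A cl τ (fun _ => True) X).card : ℝ)
    have hall : ∀ S ∈ FW A cl τ (fun _ => True) X, (GdM m f S ∧ a = 1) ∨ (¬ GdM m f S ∧ a = 0) := by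
      intro S hS
      rw [mem_FW hA.prime] at hS
      obtain ⟨p, hp, -, rfl⟩ := exists_tupleG hS.1 hS.2.1
      exact gd_one hA ha hc1 hp
    rcases (FW A cl τ (fun _ => True) X).eq_empty_or_nonempty with he | ⟨S₀, hS₀⟩
    · rw [he] at hcard
      simp at hcard
    · rcases hall S₀ hS₀ with h2 | h2
      · rw [Finset.filter_true_of_mem, h2.2, div_self hcard.ne']
        intro S hS
        rcases hall S hS with h3 | h3
        · exact h3.1
        · exact absurd (h3.2.symm.trans h2.2) zero_ne_one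
      · rw [Finset.filter_false_of_mem, h2.2, Finset.card_empty, Nat.cast_zero, zero_div]
        intro S hS
        rcases hall S hS with h3 | h3
        · exact absurd (h2.2.symm.trans h3.2) zero_ne_one
        · exact h3.1
  · obtain ⟨j, hj⟩ : ∃ j, Fintype.card ι = j + 2 := ⟨Fintype.card ι - 2, by omega⟩
    exact set_lawG hA.prime (fun _ => True) hj h0 h1 (boxH_M hA ha) (excH_M hA hj)
      (lowH_M hA i₀ hD)

/-! ### numbers -/

/-- the family of the numbers -/
def FamN (A : ℕ → Prop) (cl : ℕ → ℕ) (τ : ι → ℕ) (D : ℕ) : Prop :=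
  Squarefree D ∧ (∀ p ∈ D.primeFactors, A p) ∧ QG cl τ D.primeFactors

theorem card_num (hA : ∀ p, A p → p.Prime) (X : ℕ) (R : Finset ℕ → Prop) :
    ((Icc 1 X).filter fun D => FamN A cl τ D ∧ R D.primeFactors).card =
      ((FW A cl τ (fun _ => True) X).filter R).card := by
  refine Finset.card_bij (fun D _ => D.primeFactors) (fun D hD => ?_) (fun D hD D' hD' h => ?_)
    (fun S hS => ?_)
  · rw [mem_filter, mem_Icc] at hD
    obtain ⟨⟨h1, h2⟩, ⟨h3, h4, h5⟩, h6⟩ := hD
    rw [mem_filter, mem_FW hA]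
    exact ⟨⟨h4, h5, by rw [Nat.prod_primeFactors_of_squarefree h3]; exact h2, trivial⟩, h6⟩
  · rw [mem_filter] at hD hD'
    rw [← Nat.prod_primeFactors_of_squarefree hD.2.1.1, h,
      Nat.prod_primeFactors_of_squarefree hD'.2.1.1]
  · rw [mem_filter, mem_FW hA] at hS
    obtain ⟨⟨h1, h2, h3, -⟩, h4⟩ := hS
    have hp : ∀ q ∈ S, q.Prime := fun q hq => hA q (h1 q hq)
    have e : (∏ q ∈ S, q).primeFactors = S := Nat.primeFactors_prod hp
    refine ⟨∏ q ∈ S, q, ?_, e⟩
    rw [mem_filter, mem_Icc]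
    refine ⟨⟨Finset.prod_pos fun q hq => (hp q hq).pos, h3⟩, ⟨?_, ?_, ?_⟩, ?_⟩
    · refine Finset.squarefree_prod_of_pairwise_isCoprime (fun q hq r hr hqr => ?_)
        fun q hq => (hp q hq).squarefree
      exact Nat.coprime_iff_isRelPrime.1 ((Nat.coprime_primes (hp q hq) (hp r hr)).2 hqr)
    · rw [e]
      exact h1
    · rw [e]
      exact h2
    · rw [e]
      exact h4

theorem card_num' (hA : ∀ p, A p → p.Prime) (X : ℕ) :
    ((Icc 1 X).filter fun D => FamN A cl τ D).card = (FW A cl τ (fun _ => True) X).card := by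
  have h := card_num (τ := τ) (cl := cl) hA X fun _ => True
  simp only [and_true, Finset.filter_true] at h
  exact h

/-- **The law for the numbers.** -/
theorem num_law (hA : Adm A cl m M) (i₀ : ι) (h0 : 0 ≤ a) (h1 : a ≤ 1)
    (ha : Prob A cl M f τ a) (hD : ∀ i, Dn (PG A cl τ i)) :
    Tendsto (fun X : ℕ =>
      (((Icc 1 X).filter fun D => FamN A cl τ D ∧ GdM m f D.primeFactors).card : ℝ) /
      (((Icc 1 X).filter fun D => FamN A cl τ D).card : ℝ)) atTop (𝓝 a) := by
  refine (set_lawM hA i₀ h0 h1 ha hD).congr fun X => ?_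
  rw [card_num hA.prime, card_num' hA.prime]

/-- the size of the family -/
theorem num_size (hA : Adm A cl m M) (i₀ : ι) (hD : ∀ i, Dn (PG A cl τ i)) :
    ∃ (c C : ℝ) (X₀ : ℕ), 0 < c ∧ 0 < C ∧ ∀ X : ℕ, X₀ ≤ X →
      c * (X * Real.log (Real.log X) ^ (Fintype.card ι - 1) / Real.log X) ≤
        (((Icc 1 X).filter fun D => FamN A cl τ D).card : ℝ) ∧
      (((Icc 1 X).filter fun D => FamN A cl τ D).card : ℝ) ≤
        C * (X * Real.log (Real.log X) ^ (Fintype.card ι - 1) / Real.log X) := by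
  have hpos : 1 ≤ Fintype.card ι := Fintype.card_pos_iff.2 ⟨i₀⟩
  obtain ⟨c, X₀, hc, hlow⟩ := FW_low (W := fun _ => True) hA.prime i₀ (lowH_M hA i₀ hD)
  obtain ⟨j, hj⟩ : ∃ j, Fintype.card ι = j + 1 := ⟨Fintype.card ι - 1, by omega⟩
  obtain ⟨C, X₁, hC, hup⟩ := FW_up (cl := cl) (τ := τ) hA.prime hj fun _ => True
  refine ⟨c, C, max X₀ X₁, hc, hC, fun X hX => ?_⟩
  rw [card_num' hA.prime]
  refine ⟨hlow X ((le_max_left _ _).trans hX), ?_⟩
  have h := hup X ((le_max_right _ _).trans hX)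
  have e : Fintype.card ι - 1 = j := by omega
  rw [e]
  exact h

end law

theorem sp_nonneg (k : ℕ) : 0 ≤ sp k := by
  unfold Pool.Agent.Y219.CQ.sp
  refine Finset.prod_nonneg fun i _ => ?_
  have : (1 / 2 : ℝ) ^ (2 * i + 1) ≤ 1 := pow_le_one₀ (by norm_num) (by norm_num)
  linarith

theorem sp_le_one (k : ℕ) : sp k ≤ 1 := by
  unfold Pool.Agent.Y219.CQ.sp
  refine Finset.prod_le_one (fun i _ => ?_) fun i _ => ?_
  · have : (1 / 2 : ℝ) ^ (2 * i + 1) ≤ 1 := pow_le_one₀ (by norm_num) (by norm_num)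
    linarith
  · have : (0 : ℝ) ≤ (1 / 2 : ℝ) ^ (2 * i + 1) := by positivity
    linarith

end Run7.h268.FN
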