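import Pool.Agent.Run7.h268.FN.Glw
import Pool.Agent.Y948.CQ.C2

/-!
# The Laplacian matrices of uniformly random symbols
-/

set_option autoImplicit false

open scoped Classical

namespace Run7.h268.FN

open Finset
open Pool.Agent.Y703.CQ (prs ext S_SYM)
open Pool.Agent.Y219.CQ (F sp mem_prs ext_self ext_pos ext_neg ext_symm ext_add char2 card_symm)
open Pool.Agent.Y759.CX (fr fr_equiv fr_comp)

section affine

variable {V G : Type} [AddCommGroup V] [Finite V] [AddCommGroup G]

theorem fr_affine (L : V →+ G) (B : G) (P : G → Prop) :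
    fr (fun α : V => P (B + L α)) = ({M | M ∈ Set.range (fun α => B + L α) ∧ P M}.ncard : ℝ) /
      ((Set.range fun α => B + L α).ncard : ℝ) := by
  have hfin : Finite L.range := Finite.of_surjective _ L.rangeRestrict_surjective
  have h1 := fr_comp L.rangeRestrict L.rangeRestrict_surjective fun g : L.range => P (B + g)
  have h2 : (fun α : V => P (B + (L.rangeRestrict α : G))) = fun α => P (B + L α) := rfl
  rw [h2] at h1
  rw [h1]
  unfold fr
  have hinj : Function.Injective fun g : G => B + g := add_right_injective B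
  have e1 : (Set.range fun α => B + L α) = (fun g : G => B + g) '' (L.range : Set G) := by
    ext M
    constructor
    · rintro ⟨α, rfl⟩
      exact ⟨L α, ⟨α, rfl⟩, rfl⟩
    · rintro ⟨_, ⟨α, rfl⟩, rfl⟩
      exact ⟨α, rfl⟩
  have e2 : {M | M ∈ Set.range (fun α => B + L α) ∧ P M} =
      (fun g : G => B + g) '' {g | g ∈ L.range ∧ P (B + g)} := by
    ext M
    constructor
    · rintro ⟨⟨α, rfl⟩, h⟩
      exact ⟨L α, ⟨⟨α, rfl⟩, h⟩, rfl⟩
    · rintro ⟨_, ⟨⟨α, rfl⟩, h⟩, rfl⟩
      exact ⟨⟨α, rfl⟩, h⟩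
  rw [e2, e1, Set.ncard_image_of_injective _ hinj, Set.ncard_image_of_injective _ hinj]
  congr 2
  refine Nat.card_congr ?_
  exact { toFun := fun g => ⟨g.1.1, g.1.2, g.2⟩
          invFun := fun g => ⟨⟨g.1, g.2.1⟩, g.2.2⟩
          left_inv := fun _ => rfl
          right_inv := fun _ => rfl }

end affine

variable {ι : Type} [Fintype ι] [LinearOrder ι] (J : Finset ι) (e f : ι → ZMod 2)

/-- the Laplacian matrix of the symbols, plus a diagonal -/
noncomputable def mj (R : ι → ι → ZMod 2) : Matrix J J (ZMod 2) := fun i j =>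
  if i = j then ∑ l, R i l + f i else R i j

/-- the possible matrices -/
def Mats : Set (Matrix J J (ZMod 2)) := {M | (∀ i j : J, i ≠ j → M i j + M j i = e i * e j) ∧
  (J = univ → ∀ i : J, ∑ j, M i j = f i)}

/-- symbols with the reciprocity law come from free symbols -/
theorem ex_surj {R : ι → ι → ZMod 2} (h0 : ∀ k, R k k = 0)
    (h1 : ∀ k l, k ≠ l → R k l = R l k + e k * e l) :
    ∃ α : prs (univ : Finset ι) → ZMod 2, ex e α = R := by
  refine ⟨fun x => R x.1.1 x.1.2, ?_⟩
  funext k l
  unfold ex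
  rcases lt_trichotomy k l with h | h | h
  · rw [if_neg h.not_gt, add_zero,
      ext_pos univ _ ((mem_prs univ k l).2 ⟨mem_univ k, h.ne', fun _ => h⟩)]
  · rw [h, if_neg (lt_irrefl l), add_zero, ext_self, h0]
  · rw [if_pos h, ext_neg univ _ ((mem_prs univ l k).2 ⟨mem_univ l, h.ne', fun _ => h⟩)
      (mem_univ k)]
    exact (h1 k l h.ne').symm

theorem sum_erase_self (R : ι → ι → ZMod 2) (i : ι) : ∑ l, R i l = R i i + ∑ l ∈ univ.erase i, R i l :=
  (Finset.add_sum_erase univ _ (mem_univ i)).symm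

theorem mj_mem {R : ι → ι → ZMod 2} (h0 : ∀ k, R k k = 0)
    (h1 : ∀ k l, k ≠ l → R k l = R l k + e k * e l) : mj J f R ∈ Mats J e f := by
  constructor
  · intro i j hij
    unfold mj
    rw [if_neg hij, if_neg hij.symm, h1 i j fun h => hij (Subtype.ext h)]
    have h2 := char2 (R j i)
    calc R j i + e i * e j + R j i = (R j i + R j i) + e i * e j := by ring
      _ = e i * e j := by rw [h2, zero_add]
  · rintro rfl i
    unfold mj
    rw [← Finset.add_sum_erase univ _ (mem_univ i), if_pos rfl]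
    have h2 : ∑ x ∈ univ.erase i, (if i = x then ∑ l, R i l + f i else R i x) =
        ∑ x ∈ univ.erase i, R i x := by
      refine Finset.sum_congr rfl fun x hx => ?_
      rw [if_neg (ne_of_mem_erase hx).symm]
    have h3 : ∑ x ∈ (univ : Finset (univ : Finset ι)).erase i, R i x = ∑ l, R i l := by
      have h4 : ∑ x : (univ : Finset ι), R i x = ∑ l, R i l := by
        rw [Finset.univ_eq_attach, Finset.sum_attach univ fun l => R i l]
      rw [← h4, ← Finset.add_sum_erase univ (fun x : (univ : Finset ι) => R i x) (mem_univ i), h0,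
        zero_add]
    rw [h2, h3]
    have h5 := char2 (∑ l, R i l)
    calc ∑ l, R i l + f i + ∑ l, R i l = (∑ l, R i l + ∑ l, R i l) + f i := by ring
      _ = f i := by rw [h5, zero_add]

theorem exists_R {M : Matrix J J (ZMod 2)} (hM : M ∈ Mats J e f) :
    ∃ R : ι → ι → ZMod 2, (∀ k, R k k = 0) ∧ (∀ k l, k ≠ l → R k l = R l k + e k * e l) ∧
      mj J f R = M := by
  obtain ⟨hM1, hM2⟩ := hM
  -- the symbols outside the diagonal
  obtain ⟨R', hR'⟩ : ∃ R' : ι → ι → ZMod 2, R' = fun k l => if k = l then 0 else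
      if h : k ∈ J ∧ l ∈ J then M ⟨k, h.1⟩ ⟨l, h.2⟩ else if l < k then e k * e l else 0 := ⟨_, rfl⟩
  have r0 : ∀ k, R' k k = 0 := fun k => by
    rw [hR']
    simp
  have rJ : ∀ (k l : J), k ≠ l → R' k l = M k l := by
    intro k l hkl
    rw [hR']
    simp only
    rw [if_neg fun h => hkl (Subtype.ext h), dif_pos ⟨k.2, l.2⟩]
  have r1 : ∀ k l, k ≠ l → R' k l = R' l k + e k * e l := by
    intro k l hkl
    rw [hR']
    simp only
    rw [if_neg hkl, if_neg hkl.symm]
    by_cases h : k ∈ J ∧ l ∈ J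
    · rw [dif_pos h, dif_pos ⟨h.2, h.1⟩]
      have h2 := hM1 ⟨k, h.1⟩ ⟨l, h.2⟩ fun h3 => hkl (congrArg Subtype.val h3)
      rw [← h2]
      have h3 := char2 (M ⟨l, h.2⟩ ⟨k, h.1⟩)
      calc M ⟨k, h.1⟩ ⟨l, h.2⟩ = (M ⟨l, h.2⟩ ⟨k, h.1⟩ + M ⟨l, h.2⟩ ⟨k, h.1⟩) +
            M ⟨k, h.1⟩ ⟨l, h.2⟩ := by rw [h3, zero_add]
        _ = _ := by ring
    · rw [dif_neg h, dif_neg fun h' => h ⟨h'.2, h'.1⟩]
      rcases lt_or_gt_of_ne hkl with h3 | h3
      · rw [if_neg h3.not_gt, if_pos h3, mul_comm (e l), char2]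
      · rw [if_pos h3, if_neg h3.not_gt, zero_add]
  by_cases hJ : J = univ
  · refine ⟨R', r0, r1, ?_⟩
    funext i j
    unfold mj
    by_cases hij : i = j
    · rw [if_pos hij, ← hij]
      have h2 : ∑ l, R' i l = ∑ j : J, R' i j := by
        rw [Finset.univ_eq_attach, Finset.sum_attach J fun l => R' i l]
        exact Finset.sum_congr hJ.symm fun _ _ => rfl
      have h3 : ∑ j : J, R' i j = ∑ j ∈ univ.erase i, M i j := by
        rw [← Finset.add_sum_erase univ (fun x : J => R' i x) (mem_univ i), r0, zero_add]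
        exact Finset.sum_congr rfl fun x hx => rJ i x (ne_of_mem_erase hx).symm
      have h4 := hM2 hJ i
      rw [← Finset.add_sum_erase univ _ (mem_univ i)] at h4
      rw [h2, h3, ← h4]
      have h5 := char2 (∑ j ∈ univ.erase i, M i j)
      calc ∑ j ∈ univ.erase i, M i j + (M i i + ∑ j ∈ univ.erase i, M i j) =
            (∑ j ∈ univ.erase i, M i j + ∑ j ∈ univ.erase i, M i j) + M i i := by ring
        _ = M i i := by rw [h5, zero_add]
    · rw [if_neg hij]
      exact rJ i j hij
  · obtain ⟨l₀, hl₀⟩ : ∃ l₀, l₀ ∉ J := by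
      by_contra hcon
      push Not at hcon
      exact hJ (Finset.eq_univ_of_forall hcon)
    obtain ⟨g, hg⟩ : ∃ g : ι → ZMod 2, g = fun k => if h : k ∈ J then
      M ⟨k, h⟩ ⟨k, h⟩ + f k + ∑ l ∈ univ.erase l₀, R' k l else 0 := ⟨_, rfl⟩
    obtain ⟨R, hR⟩ : ∃ R : ι → ι → ZMod 2, R = fun k l => if k = l then 0 else
      if l = l₀ then g k else if k = l₀ then g l + e l * e l₀ else R' k l := ⟨_, rfl⟩
    have s0 : ∀ k, R k k = 0 := fun k => by
      rw [hR]
      simp
    have sR : ∀ k l, k ≠ l₀ → l ≠ l₀ → R k l = R' k l := by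
      intro k l hk hl
      rw [hR]
      simp only
      by_cases h : k = l
      · rw [if_pos h, h, r0]
      · rw [if_neg h, if_neg hl, if_neg hk]
    refine ⟨R, s0, fun k l hkl => ?_, ?_⟩
    · by_cases hl : l = l₀
      · have hk : k ≠ l₀ := fun h => hkl (h.trans hl.symm)
        rw [hR]
        simp only
        rw [if_neg hkl, if_pos hl, if_neg hkl.symm, if_neg hk, if_pos hl, hl]
        have h3 := char2 (e k * e l₀)
        rw [add_assoc, h3, add_zero]
      · by_cases hk : k = l₀
        · rw [hR]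
          simp only
          rw [if_neg hkl, if_neg hl, if_pos hk, if_neg hkl.symm, if_pos hk, hk, mul_comm]
        · rw [sR k l hk hl, sR l k hl hk]
          exact r1 k l hkl
    · have hne : ∀ i : J, (i : ι) ≠ l₀ := fun i h => hl₀ (h ▸ i.2)
      funext i j
      unfold mj
      by_cases hij : i = j
      · rw [if_pos hij, ← hij, ← Finset.add_sum_erase univ _ (mem_univ l₀)]
        have h2 : R i l₀ = g i := by
          rw [hR]
          simp only
          rw [if_neg (hne i), if_pos trivial]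
        have h3 : ∑ l ∈ univ.erase l₀, R i l = ∑ l ∈ univ.erase l₀, R' i l :=
          Finset.sum_congr rfl fun l hl => sR i l (hne i) (ne_of_mem_erase hl)
        have h4 : g i = M i i + f i + ∑ l ∈ univ.erase l₀, R' i l := by
          rw [hg]
          simp only
          rw [dif_pos i.2]
        rw [h2, h3, h4]
        have h5 := char2 (∑ l ∈ univ.erase l₀, R' i l)
        have h6 := char2 (f i)
        calc M i i + f i + ∑ l ∈ univ.erase l₀, R' i l + ∑ l ∈ univ.erase l₀, R' i l + f i =
              M i i + (f i + f i) + (∑ l ∈ univ.erase l₀, R' i l + ∑ l ∈ univ.erase l₀, R' i l) := by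
                ring
          _ = M i i := by rw [h5, h6, add_zero, add_zero]
      · rw [if_neg hij, sR i j (hne i) (hne j)]
        exact rJ i j hij

/-- the linear part -/
noncomputable def mL : (prs (univ : Finset ι) → ZMod 2) →+ Matrix J J (ZMod 2) where
  toFun α := mj J 0 (Pool.Agent.Y703.CQ.ext α)
  map_zero' := by
    have h0 : ∀ k l, Pool.Agent.Y703.CQ.ext (0 : prs (univ : Finset ι) → ZMod 2) k l = 0 := by
      intro k l
      unfold Pool.Agent.Y703.CQ.ext
      split_ifs <;> rfl
    funext i j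
    unfold mj
    split_ifs
    · simp only [h0, Finset.sum_const_zero, Pi.zero_apply, add_zero, Matrix.zero_apply]
    · rw [h0]
      rfl
  map_add' α β := by
    funext i j
    show mj J 0 (Pool.Agent.Y703.CQ.ext (α + β)) i j = mj J 0 (Pool.Agent.Y703.CQ.ext α) i j +
      mj J 0 (Pool.Agent.Y703.CQ.ext β) i j
    unfold mj
    simp only [ext_add, Finset.sum_add_distrib, Pi.zero_apply, add_zero]
    split_ifs <;> rfl

/-- the constant part -/
noncomputable def mB : Matrix J J (ZMod 2) := mj J f fun k l => if l < k then e k * e l else 0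

theorem mj_eq (α : prs (univ : Finset ι) → ZMod 2) : mj J f (ex e α) = mB J e f + mL J α := by
  funext i j
  show mj J f (ex e α) i j = mB J e f i j + mj J 0 (Pool.Agent.Y703.CQ.ext α) i j
  unfold mB mj ex
  by_cases h : i = j
  · rw [if_pos h, if_pos h, if_pos h, Finset.sum_add_distrib, Pi.zero_apply, add_zero]
    ring
  · rw [if_neg h, if_neg h, if_neg h]
    ring

theorem range_eq : (Set.range fun α : prs (univ : Finset ι) → ZMod 2 => mB J e f + mL J α) =
    Mats J e f := by
  ext M
  constructor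
  · rintro ⟨α, rfl⟩
    show mB J e f + mL J α ∈ Mats J e f
    rw [← mj_eq]
    exact mj_mem J e f (ex_self e α) fun k l h => ex_rec e α h
  · intro hM
    obtain ⟨R, h0, h1, h2⟩ := exists_R J e f hM
    obtain ⟨α, hα⟩ := ex_surj e h0 h1
    refine ⟨α, ?_⟩
    show mB J e f + mL J α = M
    rw [← mj_eq, hα, h2]

/-- **The law of the matrix.** -/
theorem frc_mats (P : Matrix J J (ZMod 2) → Prop) : frc (fun α => P (mj J f (ex e α))) =
    ({M | M ∈ Mats J e f ∧ P M}.ncard : ℝ) / ((Mats J e f).ncard : ℝ) := by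
  have h1 := fr_affine (mL J) (mB J e f) P
  rw [range_eq] at h1
  rw [← h1]
  unfold frc fr
  have h6 : Nat.card (prs (univ : Finset ι) → ZMod 2) = 2 ^ (prs (univ : Finset ι)).card := by
    rw [Nat.card_fun, Nat.card_eq_fintype_card, Nat.card_eq_fintype_card, ZMod.card,
      Fintype.card_coe]
  rw [h6, Nat.card_eq_fintype_card, Fintype.card_subtype]
  push_cast
  congr 3
  refine Finset.filter_congr fun α _ => ?_
  rw [mj_eq]

theorem rank_full {n : ℕ} (M : Matrix (Fin n) (Fin n) (ZMod 2)) : M.rank = n ↔ M.det ≠ 0 := by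
  constructor
  · intro h
    have h1 : LinearMap.range M.mulVecLin = ⊤ := by
      refine Submodule.eq_top_of_finrank_eq ?_
      rw [Module.finrank_fintype_fun_eq_card, Fintype.card_fin]
      exact h
    have h2 : Function.Surjective M.mulVec := LinearMap.range_eq_top.1 h1
    have h3 : IsUnit M := Matrix.mulVec_surjective_iff_isUnit.1 h2
    exact ((Matrix.isUnit_iff_isUnit_det M).1 h3).ne_zero
  · intro h
    have h1 := Matrix.rank_of_isUnit M ((Matrix.isUnit_iff_isUnit_det M).2 (isUnit_iff_ne_zero.2 h))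
    rw [Fintype.card_fin] at h1
    exact h1

/-- the symmetric matrices: the proportion of the nonsingular ones -/
theorem mats_symm (h : S_SYM) (hJ : J ≠ univ) (he : ∀ i ∈ J, ∀ j ∈ J, i ≠ j → e i * e j = 0) :
    ({M | M ∈ Mats J e f ∧ M.rank = J.card}.ncard : ℝ) / ((Mats J e f).ncard : ℝ) = sp J.card := by
  have e1 : ∀ M : Matrix J J (ZMod 2), M ∈ Mats J e f ↔ M.IsSymm := by
    intro M
    constructor
    · rintro ⟨h1, -⟩
      refine Matrix.IsSymm.ext fun i j => ?_
      by_cases hij : i = j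
      · rw [hij]
      · have h2 := h1 i j hij
        rw [he i i.2 j j.2 fun h => hij (Subtype.ext h)] at h2
        exact (CharTwo.add_eq_zero.1 h2).symm
    · intro hM
      refine ⟨fun i j hij => ?_, fun h => absurd h hJ⟩
      rw [he i i.2 j j.2 fun h => hij (Subtype.ext h), hM.apply i j]
      exact char2 _
  set n := J.card with hn
  let ε : J ≃ Fin n := J.equivFin
  have e2 : ∀ M : Matrix J J (ZMod 2), M.rank = n ↔ (Matrix.reindex ε ε M).det ≠ 0 := by
    intro M
    rw [← Matrix.rank_reindex ε ε M]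
    exact rank_full (Matrix.reindex ε ε M)
  have c1 : ((Mats J e f).ncard : ℝ) = 2 ^ (n * (n + 1) / 2) := by
    have h4 : (Mats J e f).ncard = Nat.card {M : Matrix (Fin n) (Fin n) F // M.IsSymm} := by
      rw [← Nat.card_coe_set_eq]
      refine Nat.card_congr (Equiv.subtypeEquiv (Matrix.reindex ε ε) fun M => ?_)
      rw [e1]
      constructor
      · intro h
        exact Matrix.IsSymm.ext fun i j => h.apply _ _
      · intro h
        refine Matrix.IsSymm.ext fun i j => ?_
        have := h.apply (ε i) (ε j)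
        simpa using this
    rw [h4, card_symm]
    push_cast
    rfl
  have c2 : ({M | M ∈ Mats J e f ∧ M.rank = n}.ncard : ℝ) = 2 ^ (n * (n + 1) / 2) * sp n := by
    have h5 := h n
    have h4 : {M | M ∈ Mats J e f ∧ M.rank = n}.ncard =
        Nat.card {M : Matrix (Fin n) (Fin n) (ZMod 2) // M.IsSymm ∧ M.det ≠ 0} := by
      rw [← Nat.card_coe_set_eq]
      refine Nat.card_congr (Equiv.subtypeEquiv (Matrix.reindex ε ε) fun M => ?_)
      show (M ∈ Mats J e f ∧ M.rank = n) ↔ _
      rw [e1, e2]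
      refine and_congr_left fun _ => ?_
      constructor
      · intro h
        exact Matrix.IsSymm.ext fun i j => h.apply _ _
      · intro h
        refine Matrix.IsSymm.ext fun i j => ?_
        have := h.apply (ε i) (ε j)
        simpa using this
    rw [h4, h5]
    rfl
  rw [c1, c2, mul_comm, mul_div_assoc, div_self (by positivity), mul_one]

theorem sp_gt (n : ℕ) : 0.4194 < sp n := by
  obtain ⟨h1, -, -, h2, -⟩ := Pool.Agent.Y948.CQ.t_C2
  obtain ⟨g, hg⟩ : ∃ g : ℕ → ℝ, g = fun k => ∏ i ∈ range k, (1 - (1 / 2 : ℝ) ^ (2 * i + 1)) :=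
    ⟨_, rfl⟩
  have h3 : Antitone g := by
    refine antitone_nat_of_succ_le fun k => ?_
    rw [hg]
    simp only
    rw [Finset.prod_range_succ]
    refine mul_le_of_le_one_right (Finset.prod_nonneg fun i _ => ?_) ?_
    · have : (1 / 2 : ℝ) ^ (2 * i + 1) ≤ 1 := pow_le_one₀ (by norm_num) (by norm_num)
      linarith
    · have : (0 : ℝ) ≤ (1 / 2 : ℝ) ^ (2 * k + 1) := by positivity
      linarith
  have h4 : Filter.Tendsto g Filter.atTop (nhds Pool.Agent.Y703.CQ.c2) := by
    rw [tendsto_iff_norm_sub_tendsto_zero]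
    refine squeeze_zero (fun k => norm_nonneg _) (g := fun k => (1 / 4 : ℝ) ^ k) (fun k => ?_)
      (tendsto_pow_atTop_nhds_zero_of_lt_one (by norm_num) (by norm_num))
    rw [Real.norm_eq_abs, hg]
    exact h1 k
  have h5 := h3.le_of_tendsto h4 ((n + 1) / 2)
  have h6 : sp n = g ((n + 1) / 2) := by
    rw [hg]
    rfl
  rw [h6]
  exact h2.trans_le h5

end Run7.h268.FN
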