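import Pool.Agent.Run7.h843.L11
import Pool.Agent.N916.GB.Num
import Pool.Agent.Run7.h268.FN.Mtx

/-!
# The descent by the isogenies of degree two, in terms of quartics, and the matrix of the twists
-/

set_option autoImplicit false

open scoped Classical

namespace Run7.h268.FN.T17

open Finset
open Pool.Agent.Y703.CQ (nr)
open Run7.h843.R (SR MatR mem_SR f16)
open Run7.h843.Sha (C1)
open Run7.h843.L (Loc Sel mem_Sel1 mem_Sel2 two NN dd TT vx vv_eq two_sqf NN_abs dd_abs sg_two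
  NNz_ne up1 up2 sq_ext NN_dvd)
open Run7.h843.N (rr ss tt rel rr_pos par)

/-- the squarefree `b₁` which divide `b` for which the quartic is solvable everywhere locally -/
def SelQ (a b : ℤ) : Set ℤ := {d | Squarefree d ∧ d ∣ b ∧
  (∃ N M e : ℝ, (M ≠ 0 ∨ e ≠ 0) ∧
    N ^ 2 = (d : ℝ) * M ^ 4 + (a : ℝ) * M ^ 2 * e ^ 2 + ((b / d : ℤ) : ℝ) * e ^ 4) ∧
  ∀ (p : ℕ) [Fact p.Prime], ∃ N M e : ℚ_[p], (M ≠ 0 ∨ e ≠ 0) ∧
    N ^ 2 = (d : ℚ_[p]) * M ^ 4 + (a : ℚ_[p]) * M ^ 2 * e ^ 2 + ((b / d : ℤ) : ℚ_[p]) * e ^ 4}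

variable {L : Type} [Field L] [CharZero L]

theorem c1_of {a b d : ℤ} (hd : d ≠ 0) (hb : b ≠ 0) (hdb : d ∣ b) {N M e : L} (hne : M ≠ 0 ∨ e ≠ 0)
    (h : N ^ 2 = (d : L) * M ^ 4 + (a : L) * M ^ 2 * e ^ 2 + ((b / d : ℤ) : L) * e ^ 4) :
    C1 L (a : ℚ) (b : ℚ) (d : ℚ) := by
  have hbd : ((b / d : ℤ) : L) * d = b := by
    rw [← Int.cast_mul, Int.ediv_mul_cancel hdb]
  have hdL : (d : L) ≠ 0 := by exact_mod_cast hd
  have hbL : (b : L) ≠ 0 := by exact_mod_cast hb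
  have hqL : ((b / d : ℤ) : L) ≠ 0 := fun h0 => hbL (by rw [← hbd, h0, zero_mul])
  have hq : (b : L) = ((b / d : ℤ) : L) * d := hbd.symm
  generalize ((b / d : ℤ) : L) = q at *
  by_cases he : e = 0
  · have hM : M ≠ 0 := hne.resolve_right fun h0 => h0 he
    subst he
    have h1 : N ^ 2 = (d : L) * M ^ 4 := by linear_combination h
    have hN : N ≠ 0 := by
      rintro rfl
      exact mul_ne_zero hdL (pow_ne_zero 4 hM) (by rw [← h1]; ring)
    refine ⟨M ^ 2 / N, 1, div_ne_zero (pow_ne_zero 2 hM) hN, ?_, Or.inl rfl⟩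
    rw [Rat.cast_intCast, div_pow, h1]
    field_simp
  by_cases hM : M = 0
  · subst hM
    have h1 : N ^ 2 = q * e ^ 4 := by linear_combination h
    have hN : N ≠ 0 := by
      rintro rfl
      exact mul_ne_zero hqL (pow_ne_zero 4 he) (by rw [← h1]; ring)
    refine ⟨N / e ^ 2, b, div_ne_zero hN (pow_ne_zero 2 he), ?_, Or.inr (Or.inl ?_)⟩
    · rw [Rat.cast_intCast, div_pow, h1, hq]
      field_simp
    · rw [Rat.cast_intCast]
  · refine ⟨M / e, d * (M / e) ^ 2, div_ne_zero hM he, by rw [Rat.cast_intCast],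
      Or.inr (Or.inr ⟨mul_ne_zero hdL (pow_ne_zero 2 (div_ne_zero hM he)), d * M * N / e ^ 3, ?_⟩)⟩
    rw [Rat.cast_intCast, Rat.cast_intCast, div_pow, mul_pow, mul_pow, h, hq]
    field_simp

theorem quartic_of {a b d : ℤ} (hd : d ≠ 0) (hdb : d ∣ b) (h : Loc L (a : L) (b : L) d) :
    ∃ N M e : L, (M ≠ 0 ∨ e ≠ 0) ∧
      N ^ 2 = (d : L) * M ^ 4 + (a : L) * M ^ 2 * e ^ 2 + ((b / d : ℤ) : L) * e ^ 4 := by
  obtain ⟨x, y, z, hx, hy, hz⟩ := h
  have hbd : ((b / d : ℤ) : L) * d = b := by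
    rw [← Int.cast_mul, Int.ediv_mul_cancel hdb]
  have hdL : (d : L) ≠ 0 := by exact_mod_cast hd
  have hz0 : z ≠ 0 := by
    rintro rfl
    rw [zero_pow two_ne_zero, mul_zero] at hz
    exact hx hz
  refine ⟨y / (d * z), z, 1, Or.inl hz0, ?_⟩
  rw [div_pow, hy, hz, ← hbd]
  field_simp

theorem dvd1 {m : ℕ} (hm : Squarefree m) {x : ℕ → ZMod 2} (b : ZMod 2) (k : ℤ) :
    two b * (NN m x : ℤ) ∣ 2 * k * m ^ 2 := by
  have h1 : two b ∣ 2 := by
    unfold two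
    split_ifs
    · exact dvd_rfl
    · exact one_dvd 2
  have h2 : (NN m x : ℤ) ∣ m := by exact_mod_cast NN_dvd hm
  have h3 := mul_dvd_mul h1 h2
  refine h3.trans ⟨k * m, by ring⟩

theorem selQ1 {u v : ℤ} {m : ℕ} (huv : IsCoprime u v) (hpar : (u + v) % 2 = 1) (ha : Run7.h843.N.Adm u v m) :
    SelQ (-4 * rr u v * m) (2 * ss u v ^ 2 * m ^ 2) =
      Sel (-4 * rr u v * m) (2 * ss u v ^ 2 * m ^ 2) := by
  have hm := ha.sq
  have hs0 : ss u v ≠ 0 := by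
    have := (par hpar).1
    omega
  have hm0 : (m : ℤ) ≠ 0 := by exact_mod_cast hm.ne_zero
  have hb : (2 * ss u v ^ 2 * m ^ 2 : ℤ) ≠ 0 :=
    mul_ne_zero (mul_ne_zero two_ne_zero (pow_ne_zero 2 hs0)) (pow_ne_zero 2 hm0)
  have key : ∀ d : ℤ, Squarefree d → (∀ q : ℕ, ∀ hq : q.Prime, @C1 (@Padic q ⟨hq⟩) _
      ((-4 * rr u v * m : ℤ) : ℚ) ((2 * ss u v ^ 2 * m ^ 2 : ℤ) : ℚ) (d : ℚ)) →
      C1 ℝ ((-4 * rr u v * m : ℤ) : ℚ) ((2 * ss u v ^ 2 * m ^ 2 : ℤ) : ℚ) (d : ℚ) →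
      ∃ y : ZMod 2 × Run7.h843.L.K1 m, two y.1 * (NN m y.2.1 : ℤ) = d := by
    intro d hsq hl hr
    obtain ⟨h1, h2, h3⟩ := up1 huv hpar ha hsq.ne_zero hl hr
    refine ⟨(Run7.h843.Desc.vv 2 d, ⟨vx m d, h3⟩), ?_⟩
    have hp : (0 : ℤ) < NN m (vx m d) := by exact_mod_cast Nat.pos_of_ne_zero Run7.h843.L.NN_ne
    refine sq_ext (two_sqf hm ha.odd _ NN_abs) hsq ?_ fun q hq =>
      (vv_eq hm h2 NNz_ne (fun _ => rfl) q hq).symm
    rw [sg_two _ NNz_ne, Run7.h843.R.sg_pos hp, Run7.h843.R.sg_pos h1]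
  ext d
  constructor
  · rintro ⟨h1, h2, ⟨N, M, e, h3, h4⟩, h5⟩
    obtain ⟨y, rfl⟩ := key d h1 (fun q hq => by
      have : Fact q.Prime := ⟨hq⟩
      obtain ⟨N, M, e, h6, h7⟩ := h5 q
      exact c1_of h1.ne_zero hb h2 h6 h7) (c1_of h1.ne_zero hb h2 h3 h4)
    exact mem_Sel1 huv hpar ha y
  · rintro ⟨h1, h2, h3⟩
    obtain ⟨y, hy⟩ := key d h1 (fun q hq => by
      have : Fact q.Prime := ⟨hq⟩
      exact (h2 q).c1) h3.c1
    have hdb : d ∣ 2 * ss u v ^ 2 * m ^ 2 := by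
      rw [← hy]
      exact dvd1 hm y.1 _
    exact ⟨h1, hdb, quartic_of h1.ne_zero hdb h3, fun p _ => quartic_of h1.ne_zero hdb (h2 p)⟩

theorem selQ2 {u v : ℤ} {m : ℕ} (huv : IsCoprime u v) (hpar : (u + v) % 2 = 1) (ha : Run7.h843.N.Adm u v m) :
    SelQ (8 * rr u v * m) (8 * tt u v ^ 2 * m ^ 2) =
      Sel (8 * rr u v * m) (8 * tt u v ^ 2 * m ^ 2) := by
  have hm := ha.sq
  have ht0 : tt u v ≠ 0 := by
    have := (par hpar).2.1
    omega
  have hm0 : (m : ℤ) ≠ 0 := by exact_mod_cast hm.ne_zero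
  have hb : (8 * tt u v ^ 2 * m ^ 2 : ℤ) ≠ 0 :=
    mul_ne_zero (mul_ne_zero (by norm_num) (pow_ne_zero 2 ht0)) (pow_ne_zero 2 hm0)
  have key : ∀ d : ℤ, Squarefree d → (∀ q : ℕ, ∀ hq : q.Prime, @C1 (@Padic q ⟨hq⟩) _
      ((8 * rr u v * m : ℤ) : ℚ) ((8 * tt u v ^ 2 * m ^ 2 : ℤ) : ℚ) (d : ℚ)) →
      ∃ y : ZMod 2 × Run7.h843.L.K2 m, two y.1 * dd m y.2.1 = d := by
    intro d hsq hl
    obtain ⟨h1, h2, h3⟩ := up2 huv hpar ha hsq.ne_zero hl
    refine ⟨(Run7.h843.Desc.vv 2 d, ⟨vx m d, h3⟩), ?_⟩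
    refine sq_ext (two_sqf hm ha.odd _ dd_abs) hsq ?_ fun q hq =>
      (vv_eq hm h2 Run7.h843.L.dd_ne Run7.h843.L.dd_vv q hq).symm
    rw [sg_two _ Run7.h843.L.dd_ne, Run7.h843.L.dd_8.2, h1]
  ext d
  constructor
  · rintro ⟨h1, h2, -, h5⟩
    obtain ⟨y, rfl⟩ := key d h1 (fun q hq => by
      have : Fact q.Prime := ⟨hq⟩
      obtain ⟨N, M, e, h6, h7⟩ := h5 q
      exact c1_of h1.ne_zero hb h2 h6 h7)
    exact mem_Sel2 huv hpar ha y
  · rintro ⟨h1, h2, h3⟩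
    obtain ⟨y, hy⟩ := key d h1 (fun q hq => by
      have : Fact q.Prime := ⟨hq⟩
      exact (h2 q).c1)
    have hdb : d ∣ 8 * tt u v ^ 2 * m ^ 2 := by
      rw [← hy]
      have h4 := dvd1 hm (x := y.2.1) y.1 (4 * tt u v ^ 2)
      have e : (2 * (4 * tt u v ^ 2) * m ^ 2 : ℤ) = 8 * tt u v ^ 2 * m ^ 2 := by ring
      rw [e] at h4
      rcases Run7.h843.L.dd_cases (m := m) (x := y.2.1) with h5 | h5
      · rw [h5]
        exact h4
      · rw [h5, mul_neg]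
        exact (neg_dvd).2 h4
    exact ⟨h1, hdb, quartic_of h1.ne_zero hdb h3, fun p _ => quartic_of h1.ne_zero hdb (h2 p)⟩

/-! ### the matrix -/

/-- the indices of the primes `1` or `7` modulo `8` -/
noncomputable def JR {n : ℕ} (c : Fin n → ℕ) : Finset (Fin n) :=
  univ.filter fun i => c i % 8 = 1 ∨ c i % 8 = 7

theorem rank_MatR {n : ℕ} {c p : Fin n → ℕ} {q : ℕ} (hq : 16 ∣ q) (hp : Function.Injective p)
    (h : ∀ i, (p i).Prime ∧ p i % q = c i) :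
    (MatR (∏ i, p i)).rank = (mj (JR c) (fun i => f16 (c i)) fun k l => nr (p k) (p l)).rank ∧
      (SR (∏ i, p i)).card = (JR c).card := by
  have h8 : ∀ i, p i % 8 = c i % 8 := fun i => by
    rw [← (h i).2, Nat.mod_mod_of_dvd _ ((by norm_num : 8 ∣ 16).trans hq)]
  have h16 : ∀ i, p i % 16 = c i % 16 := fun i => by
    rw [← (h i).2, Nat.mod_mod_of_dvd _ hq]
  have hprod : ∏ i, p i = ∏ x ∈ univ.image p, x := by
    rw [Finset.prod_image fun a _ b _ h => hp h]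
  have hpf : (∏ i, p i).primeFactors = univ.image p := by
    rw [hprod]
    refine Nat.primeFactors_prod fun x hx => ?_
    rw [mem_image] at hx
    obtain ⟨i, -, rfl⟩ := hx
    exact (h i).1
  have hmem : ∀ i : JR c, p i ∈ SR (∏ i, p i) := by
    rintro ⟨i, hi⟩
    unfold JR at hi
    rw [mem_filter] at hi
    rw [mem_SR, hpf]
    refine ⟨mem_image_of_mem _ (mem_univ i), ?_⟩
    rw [h8]
    exact hi.2
  let φ : JR c ≃ SR (∏ i, p i) := Equiv.ofBijective (fun i => ⟨p i, hmem i⟩) ⟨fun i j hij =>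
    Subtype.ext (hp (congrArg Subtype.val hij)), fun x => by
      obtain ⟨h1, h2⟩ := mem_SR.1 x.2
      rw [hpf, mem_image] at h1
      obtain ⟨i, -, hi⟩ := h1
      refine ⟨⟨i, ?_⟩, Subtype.ext hi⟩
      unfold JR
      rw [mem_filter]
      refine ⟨mem_univ i, ?_⟩
      rw [← h8, hi]
      exact h2⟩
  constructor
  · have h0 := Matrix.rank_submatrix (MatR (∏ i, p i)) φ φ
    rw [← h0]
    congr 1
    funext i j
    show nr (p i) (p j) + (if φ i = φ j then ∑ r ∈ (∏ i, p i).primeFactors, nr (p i) r + f16 (p i)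
      else 0) = if i = j then ∑ l, nr (p i) (p l) + f16 (c i) else nr (p i) (p j)
    by_cases hij : i = j
    · subst hij
      rw [if_pos rfl, if_pos rfl, Run7.h843.Desc.nr_self, zero_add, hpf,
        Finset.sum_image fun a _ b _ h => hp h]
      congr 1
      unfold f16
      rw [h16]
    · rw [if_neg hij, if_neg fun h => hij (φ.injective h), add_zero]
  · have h1 := Fintype.card_congr φ
    rw [Fintype.card_coe, Fintype.card_coe] at h1
    exact h1.symm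

end Run7.h268.FN.T17
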